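import Pool.Agent.Helper10.KSZ.St

/-! (A7): growth of zeta on the line `2/7` from the line `5/7` (project KSZ). -/

set_option autoImplicit false

open Complex Filter Topology Set
open scoped ComplexConjugate

namespace Pool.Agent.Helper1.KSZ

/-- the gamma factor of the functional equation -/
noncomputable def FF (s : ℂ) : ℂ := Complex.Gamma s * Complex.cos (Real.pi * s / 2)

theorem FF_conj (s : ℂ) : FF (conj s) = conj (FF s) := by
  unfold FF
  rw [map_mul, Complex.Gamma_conj, ← Complex.cos_conj]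
  congr 2
  rw [map_div₀, map_mul, Complex.conj_ofReal, Complex.conj_ofNat]

theorem norm_FF_conj (s : ℂ) : ‖FF (conj s)‖ = ‖FF s‖ := by rw [FF_conj, Complex.norm_conj]

theorem FF_mul {s : ℂ} (h : Complex.sin (Real.pi * s) ≠ 0) : FF s * FF (1 - s) = Real.pi / 2 := by
  unfold FF
  have h1 := Complex.Gamma_mul_Gamma_one_sub s
  have h2 : Complex.cos (Real.pi * (1 - s) / 2) = Complex.sin (Real.pi * s / 2) := by
    rw [show (Real.pi : ℂ) * (1 - s) / 2 = Real.pi / 2 - Real.pi * s / 2 by ring,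
      Complex.cos_pi_div_two_sub]
  have h3 : Complex.sin (Real.pi * s) = 2 * Complex.sin (Real.pi * s / 2) * Complex.cos (Real.pi * s / 2) := by
    rw [← Complex.sin_two_mul]; congr 1; ring
  rw [h2]
  calc Complex.Gamma s * Complex.cos (Real.pi * s / 2) * (Complex.Gamma (1 - s) * Complex.sin (Real.pi * s / 2)) =
        (Complex.Gamma s * Complex.Gamma (1 - s)) * (Complex.sin (Real.pi * s / 2) * Complex.cos (Real.pi * s / 2)) := by
        ring
    _ = (Real.pi / Complex.sin (Real.pi * s)) * (Complex.sin (Real.pi * s) / 2) := by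
        rw [h1]; congr 1; rw [h3]; ring
    _ = _ := by field_simp

theorem norm_FF_half (y : ℝ) : ‖FF (1 / 2 + y * I)‖ ^ 2 = Real.pi / 2 := by
  have hs : Complex.sin (Real.pi * (1 / 2 + y * I)) ≠ 0 := by
    have : (Real.pi : ℂ) * (1 / 2 + y * I) = Real.pi / 2 - (-(Real.pi * y : ℝ)) * I := by
      push_cast; ring
    rw [this, Complex.sin_pi_div_two_sub, neg_mul, Complex.cos_neg, Complex.cos_mul_I,
      ← Complex.ofReal_cosh]
    exact_mod_cast (Real.cosh_pos _).ne'
  have h1 := FF_mul hs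
  have h2 : (1 : ℂ) - (1 / 2 + y * I) = conj (1 / 2 + y * I) := by
    rw [map_add, map_mul, Complex.conj_I, Complex.conj_ofReal, map_div₀, map_one, Complex.conj_ofNat]
    ring
  rw [h2, FF_conj] at h1
  have h3 : ‖FF (1 / 2 + y * I)‖ ^ 2 = ‖FF (1 / 2 + y * I) * conj (FF (1 / 2 + y * I))‖ := by
    rw [norm_mul, Complex.norm_conj, sq]
  rw [h3, h1]
  rw [show (Real.pi : ℂ) / 2 = ((Real.pi / 2 : ℝ) : ℂ) by push_cast; ring, Complex.norm_real,
    Real.norm_of_nonneg (by positivity)]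

theorem norm_FF_one (y : ℝ) : ‖FF (1 + y * I)‖ ^ 2 ≤ Real.pi / 2 * |y| := by
  rcases eq_or_ne y 0 with rfl | hy
  · have : FF (1 + ((0 : ℝ) : ℂ) * I) = 0 := by
      unfold FF
      rw [Complex.ofReal_zero, zero_mul, add_zero, mul_one, Complex.cos_pi_div_two, mul_zero]
    rw [this]; simp
  have hyI : (y : ℂ) * I ≠ 0 := mul_ne_zero (by exact_mod_cast hy) Complex.I_ne_zero
  have hsinh : Real.sinh (Real.pi * y) ≠ 0 := by
    rw [Ne, Real.sinh_eq_zero]
    exact mul_ne_zero Real.pi_ne_zero hy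
  have hs : Complex.sin (Real.pi * (1 + y * I)) ≠ 0 := by
    have : (Real.pi : ℂ) * (1 + y * I) = ((Real.pi * y : ℝ) : ℂ) * I + Real.pi := by
      push_cast; ring
    rw [this, Complex.sin_add_pi, Complex.sin_mul_I, ← Complex.ofReal_sinh]
    exact neg_ne_zero.2 (mul_ne_zero (by exact_mod_cast hsinh) Complex.I_ne_zero)
  have h1 := FF_mul hs
  have h2 : (1 : ℂ) - (1 + y * I) = -(y * I) := by ring
  rw [h2] at h1
  -- relation between FF (1 - iy) and FF (-iy)
  set c : ℂ := Complex.cos (Real.pi * (y * I) / 2) with hc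
  set d : ℂ := Complex.sin (Real.pi * (y * I) / 2) with hd
  have hF1 : FF (1 - y * I) = (-(y * I)) * Complex.Gamma (-(y * I)) * d := by
    unfold FF
    have e1 : (1 : ℂ) - y * I = -(y * I) + 1 := by ring
    rw [e1, Complex.Gamma_add_one _ (neg_ne_zero.2 hyI)]
    congr 1
    rw [show (Real.pi : ℂ) * (-(y * I) + 1) / 2 = Real.pi / 2 - Real.pi * (y * I) / 2 by ring,
      Complex.cos_pi_div_two_sub]
  have hF0 : FF (-(y * I)) = Complex.Gamma (-(y * I)) * c := by
    unfold FF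
    congr 1
    rw [show (Real.pi : ℂ) * (-(y * I)) / 2 = -(Real.pi * (y * I) / 2) by ring, Complex.cos_neg]
  have hcd : FF (1 - y * I) * c = (-(y * I)) * d * FF (-(y * I)) := by
    rw [hF1, hF0]; ring
  have harg : (Real.pi : ℂ) * (y * I) / 2 = ((Real.pi * y / 2 : ℝ) : ℂ) * I := by push_cast; ring
  have hcn : ‖c‖ = Real.cosh (Real.pi * y / 2) := by
    rw [hc, harg, Complex.cos_mul_I, ← Complex.ofReal_cosh, Complex.norm_real,
      Real.norm_of_nonneg (Real.cosh_pos _).le]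
  have hdn : ‖d‖ = |Real.sinh (Real.pi * y / 2)| := by
    rw [hd, harg, Complex.sin_mul_I, ← Complex.ofReal_sinh, norm_mul, Complex.norm_I, mul_one,
      Complex.norm_real, Real.norm_eq_abs]
  have hdc : ‖d‖ ≤ ‖c‖ := by
    rw [hcn, hdn]
    apply abs_le_of_sq_le_sq _ (Real.cosh_pos _).le
    have := Real.cosh_sq (Real.pi * y / 2)
    linarith
  have hc0 : 0 < ‖c‖ := by rw [hcn]; exact Real.cosh_pos _
  have hconj : ‖FF (1 - y * I)‖ = ‖FF (1 + y * I)‖ := by
    rw [← norm_FF_conj (1 + y * I)]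
    congr 2
    rw [map_add, map_mul, Complex.conj_I, Complex.conj_ofReal, map_one]
    ring
  have h3 : ‖FF (1 + y * I)‖ * ‖FF (-(y * I))‖ = Real.pi / 2 := by
    rw [← norm_mul, h1, show (Real.pi : ℂ) / 2 = ((Real.pi / 2 : ℝ) : ℂ) by push_cast; ring,
      Complex.norm_real, Real.norm_of_nonneg (by positivity)]
  have h4 : ‖FF (1 + y * I)‖ * ‖c‖ = |y| * ‖d‖ * ‖FF (-(y * I))‖ := by
    rw [← hconj, ← norm_mul, hcd, norm_mul, norm_mul, norm_neg, norm_mul, Complex.norm_I, mul_one,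
      Complex.norm_real, Real.norm_eq_abs]
  have h5 : ‖FF (1 + y * I)‖ ^ 2 * ‖c‖ = Real.pi / 2 * |y| * ‖d‖ := by
    calc ‖FF (1 + y * I)‖ ^ 2 * ‖c‖ = ‖FF (1 + y * I)‖ * (‖FF (1 + y * I)‖ * ‖c‖) := by ring
      _ = ‖FF (1 + y * I)‖ * (|y| * ‖d‖ * ‖FF (-(y * I))‖) := by rw [h4]
      _ = (‖FF (1 + y * I)‖ * ‖FF (-(y * I))‖) * (|y| * ‖d‖) := by ring
      _ = _ := by rw [h3]; ring
  have h6 : ‖FF (1 + y * I)‖ ^ 2 * ‖c‖ ≤ (Real.pi / 2 * |y|) * ‖c‖ := by
    rw [h5]
    exact mul_le_mul_of_nonneg_left hdc (by positivity)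
  exact le_of_mul_le_mul_right h6 hc0

theorem norm_Gamma_le {s : ℂ} (hs : 0 < s.re) : ‖Complex.Gamma s‖ ≤ Real.Gamma s.re := by
  rw [Complex.Gamma_eq_integral hs, Real.Gamma_eq_integral hs]
  unfold Complex.GammaIntegral
  refine (MeasureTheory.norm_integral_le_integral_norm _).trans (le_of_eq ?_)
  refine MeasureTheory.setIntegral_congr_fun measurableSet_Ioi (fun x hx => ?_)
  have hx0 : (0 : ℝ) < x := hx
  show ‖((Real.exp (-x) : ℝ) : ℂ) * (x : ℂ) ^ (s - 1)‖ = Real.exp (-x) * x ^ (s.re - 1)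
  rw [norm_mul, Complex.norm_real, Real.norm_of_nonneg (Real.exp_pos _).le,
    Complex.norm_cpow_eq_rpow_re_of_pos hx0]
  simp

theorem norm_cos_le (s : ℂ) : ‖Complex.cos s‖ ≤ Real.exp |s.im| := by
  have h : Complex.cos s = (Complex.exp (s * I) + Complex.exp (-s * I)) / 2 := rfl
  rw [h, norm_div]
  have h2 : ‖(2 : ℂ)‖ = 2 := by simp
  rw [h2, div_le_iff₀ (by norm_num)]
  refine (norm_add_le _ _).trans ?_
  rw [Complex.norm_exp, Complex.norm_exp]
  have e1 : (s * I).re = -s.im := by simp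
  have e2 : (-s * I).re = s.im := by simp
  rw [e1, e2]
  have h3 : Real.exp (-s.im) ≤ Real.exp |s.im| := Real.exp_le_exp.2 (neg_le_abs _)
  have h4 : Real.exp (s.im) ≤ Real.exp |s.im| := Real.exp_le_exp.2 (le_abs_self _)
  linarith

/-- `|FF (5/7 + iT)| ≤ C T^(3/14)` -/
theorem norm_FF_line : ∃ C : ℝ, 0 < C ∧ ∀ T : ℝ, 1 ≤ T →
    ‖FF ((5 / 7 : ℝ) + T * I)‖ ≤ C * T ^ (3 / 14 : ℝ) := by
  obtain ⟨G0, hG0⟩ : ∃ G0 : ℝ, ∀ x ∈ Icc (1 / 2 : ℝ) 1, Real.Gamma x ≤ G0 := by
    have hcont : ContinuousOn Real.Gamma (Icc (1 / 2 : ℝ) 1) := by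
      intro x hx
      apply ContinuousAt.continuousWithinAt
      apply DifferentiableAt.continuousAt (𝕜 := ℝ)
      apply Real.differentiableAt_Gamma
      intro m hm
      have h1 : (0 : ℝ) < x := by linarith [hx.1]
      have h2 : (0 : ℝ) ≤ m := Nat.cast_nonneg m
      linarith
    obtain ⟨G0, hG0⟩ := (isCompact_Icc.image_of_continuousOn hcont).bddAbove
    exact ⟨G0, fun x hx => hG0 ⟨x, hx, rfl⟩⟩
  have hG0nn : 0 ≤ G0 := (Real.Gamma_pos_of_pos (by norm_num : (0 : ℝ) < 1)).le.trans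
    (hG0 1 ⟨by norm_num, le_rfl⟩)
  set K : ℝ := Real.sqrt (Real.pi / 2) with hK
  have hK0 : 0 < K := Real.sqrt_pos.2 (by positivity)
  refine ⟨K * 2, by positivity, fun T hT => ?_⟩
  have hT0 : 0 < T := by linarith
  set G : ℂ → ℂ := fun s => FF s * (T : ℂ) ^ (-(s - 1 / 2)) / (s - T * I + 1) with hG
  have hden : ∀ s : ℂ, 1 / 2 ≤ s.re → 3 / 2 ≤ ‖s - T * I + 1‖ := by
    intro s hs
    have h1 := Complex.abs_re_le_norm (s - T * I + 1)
    have h2 : (s - T * I + 1).re = s.re + 1 := by simp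
    rw [h2, abs_of_nonneg (by linarith)] at h1
    linarith
  have hTn : ∀ s : ℂ, ‖(T : ℂ) ^ (-(s - 1 / 2))‖ = T ^ (-(s.re - 1 / 2)) := by
    intro s
    rw [Complex.norm_cpow_eq_rpow_re_of_pos hT0]
    congr 1
    simp
  have hFdiff : ∀ s : ℂ, 0 < s.re → DifferentiableAt ℂ FF s := by
    intro s hs
    unfold FF
    refine DifferentiableAt.mul (Complex.differentiableAt_Gamma s (fun m hm => ?_)) ?_
    · have := congrArg Complex.re hm
      simp at this
      have h2 : (0 : ℝ) ≤ m := Nat.cast_nonneg m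
      linarith
    · fun_prop
  have hGdiff : ∀ s : ℂ, 1 / 2 ≤ s.re → DifferentiableAt ℂ G s := by
    intro s hs
    rw [hG]
    refine DifferentiableAt.div (DifferentiableAt.mul (hFdiff s (by linarith)) ?_) (by fun_prop) ?_
    · refine DifferentiableAt.const_cpow (by fun_prop) (Or.inl ?_)
      exact_mod_cast hT0.ne'
    · have := hden s hs
      intro h0
      rw [h0, norm_zero] at this
      linarith
  have key : ∀ s : ℂ, 1 / 2 ≤ s.re → s.re ≤ 1 → ‖G s‖ ≤ K := by
    intro s hs1 hs2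
    refine PhragmenLindelof.vertical_strip (a := 1 / 2) (b := 1) (f := G) (C := K) ?_ ?_ ?_ ?_ hs1 hs2
    · refine ⟨fun z hz => (hGdiff z hz.1.le).differentiableWithinAt, ?_⟩
      have hcl : closure (Complex.re ⁻¹' Ioo (1 / 2 : ℝ) 1) ⊆ {z : ℂ | 1 / 2 ≤ z.re} := by
        apply closure_minimal (fun z hz => hz.1.le)
        exact isClosed_le continuous_const Complex.continuous_re
      exact fun z hz => (hGdiff z (hcl hz)).continuousAt.continuousWithinAt
    · refine ⟨1, ?_, Real.pi / 2, ?_⟩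
      · rw [lt_div_iff₀ (by norm_num)]
        linarith [Real.pi_gt_three]
      · refine Asymptotics.IsBigO.of_bound G0 ?_
        refine Filter.mem_inf_of_right ?_
        rw [Filter.mem_principal]
        intro z hz
        have hz1 : 1 / 2 < z.re := hz.1
        have hz2 : z.re < 1 := hz.2
        show ‖G z‖ ≤ G0 * ‖Real.exp (Real.pi / 2 * Real.exp (1 * |z.im|))‖
        rw [Real.norm_of_nonneg (Real.exp_pos _).le, one_mul]
        have h1 : ‖FF z‖ ≤ G0 * Real.exp (Real.pi / 2 * Real.exp |z.im|) := by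
          unfold FF
          rw [norm_mul]
          have h2 : ‖Complex.Gamma z‖ ≤ G0 :=
            (norm_Gamma_le (by linarith)).trans (hG0 _ ⟨hz1.le, hz2.le⟩)
          have h3 := norm_cos_le (Real.pi * z / 2)
          have h4 : ((Real.pi : ℂ) * z / 2).im = Real.pi / 2 * z.im := by
            rw [show (Real.pi : ℂ) * z / 2 = ((Real.pi / 2 : ℝ) : ℂ) * z by push_cast; ring]
            exact Complex.im_ofReal_mul _ _
          rw [h4, abs_mul, abs_of_nonneg (by positivity : 0 ≤ Real.pi / 2)] at h3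
          have h5 : Real.exp (Real.pi / 2 * |z.im|) ≤ Real.exp (Real.pi / 2 * Real.exp |z.im|) := by
            apply Real.exp_le_exp.2
            have := Real.add_one_le_exp |z.im|
            apply mul_le_mul_of_nonneg_left _ (by positivity)
            linarith
          calc _ ≤ G0 * Real.exp (Real.pi / 2 * |z.im|) := by gcongr
            _ ≤ _ := by gcongr
        have h6 : T ^ (-(z.re - 1 / 2)) ≤ 1 :=
          Real.rpow_le_one_of_one_le_of_nonpos hT (by linarith)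
        have h7 := hden z hz1.le
        rw [hG]
        show ‖FF z * (T : ℂ) ^ (-(z - 1 / 2)) / (z - T * I + 1)‖ ≤ _
        rw [norm_div, norm_mul, hTn, div_le_iff₀ (by linarith)]
        have h8 : 0 ≤ G0 * Real.exp (Real.pi / 2 * Real.exp |z.im|) := by positivity
        calc ‖FF z‖ * T ^ (-(z.re - 1 / 2)) ≤ (G0 * Real.exp (Real.pi / 2 * Real.exp |z.im|)) * 1 := by
              gcongr
          _ ≤ _ := by
              apply mul_le_mul_of_nonneg_left _ h8
              linarith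
    · intro z hz
      have hz' : z = 1 / 2 + (z.im : ℂ) * I := by
        apply Complex.ext
        · simp [hz]
        · simp
      have h1 : ‖FF z‖ = K := by
        have := norm_FF_half z.im
        rw [← hz'] at this
        rw [hK, ← this, Real.sqrt_sq (norm_nonneg _)]
      have h7 := hden z (by rw [hz])
      rw [hG]
      show ‖FF z * (T : ℂ) ^ (-(z - 1 / 2)) / (z - T * I + 1)‖ ≤ _
      rw [norm_div, norm_mul, hTn, div_le_iff₀ (by linarith), h1, hz, sub_self, neg_zero,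
        Real.rpow_zero]
      apply mul_le_mul_of_nonneg_left _ hK0.le
      linarith
    · intro z hz
      have hz' : z = 1 + (z.im : ℂ) * I := by
        apply Complex.ext
        · simp [hz]
        · simp
      have h1 : ‖FF z‖ ^ 2 ≤ Real.pi / 2 * |z.im| := by
        have := norm_FF_one z.im
        rwa [← hz'] at this
      have h2 : ‖FF z‖ ≤ K * Real.sqrt |z.im| := by
        rw [hK, ← Real.sqrt_mul (by positivity)]
        exact Real.le_sqrt_of_sq_le h1
      rw [hG]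
      show ‖FF z * (T : ℂ) ^ (-(z - 1 / 2)) / (z - T * I + 1)‖ ≤ _
      have h7 := hden z (by rw [hz]; norm_num)
      rw [norm_div, norm_mul, hTn, div_le_iff₀ (by linarith), hz]
      have h3 : T ^ (-((1 : ℝ) - 1 / 2)) = 1 / Real.sqrt T := by
        rw [show -((1 : ℝ) - 1 / 2) = -(1 / 2) by norm_num, Real.rpow_neg hT0.le, ← Real.sqrt_eq_rpow,
          one_div]
      rw [h3]
      have hsT : 0 < Real.sqrt T := Real.sqrt_pos.2 hT0
      have h4 : |z.im| ≤ T * (1 + |z.im - T|) := by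
        have : |z.im| ≤ |z.im - T| + T := by
          have := abs_add_le (z.im - T) T
          rw [sub_add_cancel, abs_of_pos hT0] at this
          exact this
        nlinarith [abs_nonneg (z.im - T)]
      have h5 : Real.sqrt |z.im| / Real.sqrt T ≤ ‖z - T * I + 1‖ := by
        rw [← Real.sqrt_div (abs_nonneg _)]
        apply Real.sqrt_le_iff.2
        refine ⟨norm_nonneg _, ?_⟩
        rw [div_le_iff₀ hT0]
        have h6 : 1 + |z.im - T| ≤ ‖z - T * I + 1‖ ^ 2 := by
          rw [← Complex.normSq_eq_norm_sq, Complex.normSq_apply]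
          have e1 : (z - T * I + 1).re = 2 := by simp [hz]; norm_num
          have e2 : (z - T * I + 1).im = z.im - T := by simp
          rw [e1, e2]
          nlinarith [sq_abs (z.im - T), sq_nonneg (|z.im - T| - 1)]
        nlinarith
      calc ‖FF z‖ * (1 / Real.sqrt T) ≤ (K * Real.sqrt |z.im|) * (1 / Real.sqrt T) := by gcongr
        _ = K * (Real.sqrt |z.im| / Real.sqrt T) := by ring
        _ ≤ _ := by gcongr
  have hfin := key ((5 / 7 : ℝ) + T * I) (by simp; norm_num) (by simp; norm_num)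
  rw [hG] at hfin
  simp only at hfin
  have hre : ((5 / 7 : ℝ) + T * I : ℂ).re = 5 / 7 := by simp
  have hd1 : ((5 / 7 : ℝ) : ℂ) + T * I - T * I + 1 = ((12 / 7 : ℝ) : ℂ) := by push_cast; ring
  rw [norm_div, norm_mul, hTn, hre, hd1, Complex.norm_real, Real.norm_of_nonneg (by norm_num),
    div_le_iff₀ (by norm_num)] at hfin
  have hp : T ^ (-((5 / 7 : ℝ) - 1 / 2)) = (T ^ (3 / 14 : ℝ))⁻¹ := by
    rw [← Real.rpow_neg hT0.le]; norm_num
  rw [hp] at hfin
  have hpos : 0 < T ^ (3 / 14 : ℝ) := Real.rpow_pos_of_pos hT0 _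
  have h9 : ‖FF ((5 / 7 : ℝ) + T * I)‖ = ‖FF ((5 / 7 : ℝ) + T * I)‖ * (T ^ (3 / 14 : ℝ))⁻¹ * T ^ (3 / 14 : ℝ) := by
    field_simp
  rw [h9]
  calc _ ≤ (K * (12 / 7)) * T ^ (3 / 14 : ℝ) := mul_le_mul_of_nonneg_right hfin hpos.le
    _ ≤ _ := by gcongr; norm_num

theorem norm_FF_line_abs : ∃ C : ℝ, 0 < C ∧ ∀ t : ℝ, 1 ≤ |t| →
    ‖FF ((5 / 7 : ℝ) + t * I)‖ ≤ C * |t| ^ (3 / 14 : ℝ) := by
  obtain ⟨C, hC, h⟩ := norm_FF_line
  refine ⟨C, hC, fun t ht => ?_⟩
  rcases le_total 0 t with h0 | h0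
  · rw [abs_of_nonneg h0] at ht ⊢
    exact h t ht
  · rw [abs_of_nonpos h0] at ht ⊢
    have e : ((5 / 7 : ℝ) : ℂ) + t * I = conj (((5 / 7 : ℝ) : ℂ) + ((-t : ℝ) : ℂ) * I) := by
      rw [map_add, map_mul, Complex.conj_I, Complex.conj_ofReal, Complex.conj_ofReal]
      push_cast; ring
    rw [e, norm_FF_conj]
    exact h (-t) ht

open Pool.Agent.Helper10.KSZ in
theorem a7 (h : A5half) : A7 := by
  obtain ⟨C1, hC1, h1⟩ := h
  obtain ⟨C2, hC2, h2⟩ := norm_FF_line_abs
  refine ⟨2 * C2 * C1, by positivity, fun t ht => ?_⟩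
  have ht0 : 0 < |t| := by linarith
  set s : ℂ := ((5 / 7 : ℝ) : ℂ) + ((-t : ℝ) : ℂ) * I with hs
  have hre : s.re = 5 / 7 := by simp [hs]
  have him : s.im = -t := by simp [hs]
  have e : (((2 / 7 : ℝ) : ℂ) + (t : ℂ) * I) = 1 - s := by
    rw [hs]; push_cast; ring
  rw [e, riemannZeta_one_sub (by
    intro n hn
    have := congrArg Complex.re hn
    rw [hre] at this
    simp at this
    have h3 : (0 : ℝ) ≤ n := Nat.cast_nonneg n
    linarith) (by
    intro hn
    have := congrArg Complex.re hn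
    rw [hre] at this
    simp at this
    norm_num at this)]
  have h3 : ‖FF s‖ ≤ C2 * |t| ^ (3 / 14 : ℝ) := by
    have := h2 (-t) (by rw [abs_neg]; linarith)
    rwa [abs_neg] at this
  have h4 : ‖riemannZeta s‖ ≤ C1 * |t| ^ (1 / 14 : ℝ) * Real.log |t| := by
    have := h1 (-t) (by rw [abs_neg]; exact ht)
    rwa [abs_neg] at this
  have h5 : ‖(2 : ℂ) * (2 * Real.pi) ^ (-s)‖ ≤ 2 := by
    rw [norm_mul]
    have e1 : ((2 : ℂ) * Real.pi) = ((2 * Real.pi : ℝ) : ℂ) := by push_cast; ring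
    rw [e1, Complex.norm_cpow_eq_rpow_re_of_pos (by positivity)]
    have e2 : (-s).re = -(5 / 7) := by rw [Complex.neg_re, hre]
    rw [e2]
    have e3 : (2 * Real.pi) ^ (-(5 / 7) : ℝ) ≤ 1 :=
      Real.rpow_le_one_of_one_le_of_nonpos (by linarith [Real.pi_gt_three]) (by norm_num)
    have e4 : ‖(2 : ℂ)‖ = 2 := by simp
    rw [e4]; linarith
  have e5 : (2 : ℂ) * (2 * Real.pi) ^ (-s) * Complex.Gamma s * Complex.cos (Real.pi * s / 2) * riemannZeta s =
      (2 * (2 * Real.pi) ^ (-s)) * FF s * riemannZeta s := by unfold FF; ring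
  rw [e5, norm_mul, norm_mul]
  have hlog : 0 ≤ Real.log |t| := Real.log_nonneg (by linarith)
  calc _ ≤ 2 * (C2 * |t| ^ (3 / 14 : ℝ)) * (C1 * |t| ^ (1 / 14 : ℝ) * Real.log |t|) := by gcongr
    _ = 2 * C2 * C1 * (|t| ^ (3 / 14 : ℝ) * |t| ^ (1 / 14 : ℝ)) * Real.log |t| := by ring
    _ = _ := by rw [← Real.rpow_add ht0]; norm_num

end Pool.Agent.Helper1.KSZ
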