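import Pool.Agent.Helper1.KSZ.LineA7
import Pool.Agent.Helper60.KS.St

/-! (A7) in the shape of Helper60.KS.St (project KSZ). -/

set_option autoImplicit false

open Complex
open scoped ComplexConjugate

namespace Pool.Agent.Helper1.KSZ

theorem a5half_of_a5 (h : Pool.Agent.Helper60.KS.A5) : Pool.Agent.Helper10.KSZ.A5half := by
  obtain ⟨C, hC, -, h2⟩ := h
  refine ⟨C, hC, fun t ht => ?_⟩
  have key : ∀ u : ℝ, 2 ≤ u → ‖riemannZeta ((5 / 7 : ℝ) + (u : ℂ) * Complex.I)‖ ≤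
      C * u ^ (1 / 14 : ℝ) * Real.log u := by
    intro u hu
    have := h2 (5 / 7) u le_rfl (by norm_num) hu
    rwa [show ((1 : ℝ) - 5 / 7) / 4 = 1 / 14 by norm_num] at this
  rcases le_total 0 t with h0 | h0
  · rw [abs_of_nonneg h0] at ht ⊢
    exact key t ht
  · rw [abs_of_nonpos h0] at ht ⊢
    have e : ((5 / 7 : ℝ) : ℂ) + t * I = conj (((5 / 7 : ℝ) : ℂ) + ((-t : ℝ) : ℂ) * I) := by
      rw [map_add, map_mul, Complex.conj_I, Complex.conj_ofReal, Complex.conj_ofReal]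
      push_cast; ring
    rw [e, riemannZeta_conj, Complex.norm_conj]
    exact key (-t) ht

theorem a7_helper60 (h : Pool.Agent.Helper60.KS.A5) : Pool.Agent.Helper60.KS.A7 := by
  obtain ⟨C, hC, h1⟩ := a7 (a5half_of_a5 h)
  refine ⟨C, hC, fun t ht => ?_⟩
  have := h1 t (by rw [abs_of_nonneg (by linarith)]; exact ht)
  rw [abs_of_nonneg (by linarith : (0 : ℝ) ≤ t)] at this
  have e : ((2 / 7 : ℝ) : ℂ) = 2 / 7 := by push_cast; ring
  rwa [e] at this

end Pool.Agent.Helper1.KSZ
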