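import Mathlib

/-! Weyl-van der Corput inequality (A-process), project KSZ. -/

set_option autoImplicit false
open scoped ComplexConjugate

namespace Pool.Agent.Helper1.KSZ

/-- shifted truncated sequence: `z` on `(a, b]`, moved by `H` -/
noncomputable def yy (z : ℕ → ℂ) (a b H : ℕ) (n : ℕ) : ℂ :=
  if a + H < n ∧ n ≤ b + H then z (n - H) else 0

theorem yy_eq {z : ℕ → ℂ} {a b H n : ℕ} (h1 : a + H < n) (h2 : n ≤ b + H) :
    yy z a b H n = z (n - H) := by
  unfold yy; rw [if_pos ⟨h1, h2⟩]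

theorem yy_zero {z : ℕ → ℂ} {a b H n : ℕ} (h : ¬ (a + H < n ∧ n ≤ b + H)) :
    yy z a b H n = 0 := by
  unfold yy; rw [if_neg h]

theorem yy_norm_le {z : ℕ → ℂ} (hz : ∀ n, ‖z n‖ ≤ 1) (a b H n : ℕ) : ‖yy z a b H n‖ ≤ 1 := by
  unfold yy
  split_ifs
  · exact hz _
  · simp

/-- the total sum, shifted by `h < H` -/
theorem sum_shift (z : ℕ → ℂ) (a b H h : ℕ) (hh : h < H) :
    ∑ m ∈ Finset.Ioc (a + 1) (b + H), yy z a b H (m + h) = ∑ n ∈ Finset.Ioc a b, z n := by
  have h1 : ∑ n ∈ Finset.Ioc a b, z n =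
      ∑ n ∈ (Finset.Ioc (a + 1) (b + H)).filter (fun m => a + H < m + h ∧ m + h ≤ b + H),
        yy z a b H (n + h) := by
    refine Finset.sum_bij' (fun n _ => n + H - h) (fun m _ => m + h - H) ?_ ?_ ?_ ?_ ?_
    · intro n hn
      simp only [Finset.mem_Ioc, Finset.mem_filter] at hn ⊢
      omega
    · intro n hn
      simp only [Finset.mem_Ioc, Finset.mem_filter] at hn ⊢
      omega
    · intro n hn
      simp only [Finset.mem_Ioc] at hn ⊢
      omega
    · intro n hn
      simp only [Finset.mem_Ioc, Finset.mem_filter] at hn ⊢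
      omega
    · intro n hn
      simp only [Finset.mem_Ioc] at hn
      rw [yy_eq (by omega) (by omega)]
      congr 1
      omega
  rw [h1, Finset.sum_filter]
  refine Finset.sum_congr rfl (fun m _ => ?_)
  split_ifs with hc
  · rfl
  · exact yy_zero hc

/-- correlations -/
theorem sum_corr (z : ℕ → ℂ) (a b H h d : ℕ) (hh : h + d < H) :
    ∑ m ∈ Finset.Ioc (a + 1) (b + H), yy z a b H (m + (h + d)) * conj (yy z a b H (m + h)) =
      ∑ n ∈ Finset.Ioc a (b - d), z (n + d) * conj (z n) := by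
  have h1 : ∑ n ∈ Finset.Ioc a (b - d), z (n + d) * conj (z n) =
      ∑ m ∈ (Finset.Ioc (a + 1) (b + H)).filter
        (fun m => a + H < m + h ∧ m + (h + d) ≤ b + H),
        yy z a b H (m + (h + d)) * conj (yy z a b H (m + h)) := by
    refine Finset.sum_bij' (fun n _ => n + H - h) (fun m _ => m + h - H) ?_ ?_ ?_ ?_ ?_
    · intro n hn
      simp only [Finset.mem_Ioc, Finset.mem_filter] at hn ⊢
      omega
    · intro n hn
      simp only [Finset.mem_Ioc, Finset.mem_filter] at hn ⊢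
      omega
    · intro n hn
      simp only [Finset.mem_Ioc] at hn ⊢
      omega
    · intro n hn
      simp only [Finset.mem_Ioc, Finset.mem_filter] at hn ⊢
      omega
    · intro n hn
      simp only [Finset.mem_Ioc] at hn
      rw [yy_eq (n := n + H - h + (h + d)) (by omega) (by omega),
        yy_eq (n := n + H - h + h) (by omega) (by omega)]
      congr 2
      · omega
      · congr 1; omega
  rw [h1, Finset.sum_filter]
  refine Finset.sum_congr rfl (fun m _ => ?_)
  split_ifs with hc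
  · rfl
  · by_cases h3 : a + H < m + h
    · rw [yy_zero (n := m + (h + d)) (by omega), zero_mul]
    · rw [yy_zero (n := m + h) (by omega), map_zero, mul_zero]

/-- norm of the `d`-th correlation -/
noncomputable def corr (z : ℕ → ℂ) (a b d : ℕ) : ℝ :=
  ‖∑ n ∈ Finset.Ioc a (b - d), z (n + d) * conj (z n)‖

theorem corr_nonneg (z : ℕ → ℂ) (a b d : ℕ) : 0 ≤ corr z a b d := norm_nonneg _

theorem pair_le (z : ℕ → ℂ) (a b H h1 h2 : ℕ) (hh1 : h1 < H) (hh2 : h2 < H) :
    ‖∑ m ∈ Finset.Ioc (a + 1) (b + H), yy z a b H (m + h1) * conj (yy z a b H (m + h2))‖ =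
      if h2 ≤ h1 then corr z a b (h1 - h2) else corr z a b (h2 - h1) := by
  split_ifs with h
  · obtain ⟨d, rfl⟩ := Nat.exists_eq_add_of_le h
    rw [sum_corr z a b H h2 d hh1]
    unfold corr
    rw [Nat.add_sub_cancel_left]
  · push Not at h
    obtain ⟨d, rfl⟩ := Nat.exists_eq_add_of_le h.le
    have : ∑ m ∈ Finset.Ioc (a + 1) (b + H), yy z a b H (m + h1) * conj (yy z a b H (m + (h1 + d)))
        = conj (∑ m ∈ Finset.Ioc (a + 1) (b + H),
          yy z a b H (m + (h1 + d)) * conj (yy z a b H (m + h1))) := by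
      rw [map_sum]
      refine Finset.sum_congr rfl (fun m _ => ?_)
      rw [map_mul, Complex.conj_conj, mul_comm]
    rw [this, sum_corr z a b H h1 d hh2]
    unfold corr
    rw [Nat.add_sub_cancel_left, Complex.norm_conj]

theorem row_le (s : ℕ → ℝ) (hs : ∀ d, 0 ≤ s d) (H h1 : ℕ) (hh1 : h1 < H) :
    ∑ h2 ∈ Finset.range H, (if h2 ≤ h1 then s (h1 - h2) else s (h2 - h1)) ≤
      s 0 + 2 * ∑ d ∈ Finset.Ico 1 H, s d := by
  have hsplit : Finset.range H = insert h1 (Finset.range h1 ∪ Finset.Ico (h1 + 1) H) := by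
    ext x
    simp only [Finset.mem_range, Finset.mem_insert, Finset.mem_union, Finset.mem_Ico]
    omega
  rw [hsplit, Finset.sum_insert (by simp), Finset.sum_union]
  · have e1 : ∑ x ∈ Finset.range h1, (if x ≤ h1 then s (h1 - x) else s (x - h1)) ≤
        ∑ d ∈ Finset.Ico 1 H, s d := by
      have : ∑ x ∈ Finset.range h1, (if x ≤ h1 then s (h1 - x) else s (x - h1)) =
          ∑ d ∈ Finset.Ico 1 (h1 + 1), s d := by
        refine Finset.sum_bij' (fun x _ => h1 - x) (fun d _ => h1 - d) ?_ ?_ ?_ ?_ ?_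
        · intro x hx; simp only [Finset.mem_range, Finset.mem_Ico] at hx ⊢; omega
        · intro x hx; simp only [Finset.mem_range, Finset.mem_Ico] at hx ⊢; omega
        · intro x hx; simp only [Finset.mem_range] at hx; omega
        · intro x hx; simp only [Finset.mem_Ico] at hx; omega
        · intro x hx
          simp only [Finset.mem_range] at hx
          rw [if_pos hx.le]
      rw [this]
      exact Finset.sum_le_sum_of_subset_of_nonneg
        (Finset.Ico_subset_Ico le_rfl hh1) (fun i _ _ => hs i)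
    have e2 : ∑ x ∈ Finset.Ico (h1 + 1) H, (if x ≤ h1 then s (h1 - x) else s (x - h1)) ≤
        ∑ d ∈ Finset.Ico 1 H, s d := by
      have : ∑ x ∈ Finset.Ico (h1 + 1) H, (if x ≤ h1 then s (h1 - x) else s (x - h1)) =
          ∑ d ∈ Finset.Ico 1 (H - h1), s d := by
        refine Finset.sum_bij' (fun x _ => x - h1) (fun d _ => d + h1) ?_ ?_ ?_ ?_ ?_
        · intro x hx; simp only [Finset.mem_Ico] at hx ⊢; omega
        · intro x hx; simp only [Finset.mem_Ico] at hx ⊢; omega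
        · intro x hx; simp only [Finset.mem_Ico] at hx; omega
        · intro x hx; simp only [Finset.mem_Ico] at hx; omega
        · intro x hx
          simp only [Finset.mem_Ico] at hx
          rw [if_neg (by omega)]
      rw [this]
      exact Finset.sum_le_sum_of_subset_of_nonneg
        (Finset.Ico_subset_Ico le_rfl (Nat.sub_le _ _)) (fun i _ _ => hs i)
    rw [if_pos le_rfl, Nat.sub_self]
    linarith
  · rw [Finset.disjoint_left]
    intro x hx hx2
    simp only [Finset.mem_range, Finset.mem_Ico] at hx hx2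
    omega

/-- Weyl-van der Corput inequality -/
theorem aproc (z : ℕ → ℂ) (hz : ∀ n, ‖z n‖ ≤ 1) (a b H : ℕ) (hab : a < b) (hH : 1 ≤ H) :
    (H : ℝ) * ‖∑ n ∈ Finset.Ioc a b, z n‖ ^ 2 ≤
      ((b : ℝ) - a + H) * (((b : ℝ) - a) + 2 * ∑ d ∈ Finset.Ico 1 H, corr z a b d) := by
  set S := ∑ n ∈ Finset.Ioc a b, z n with hS
  set I := Finset.Ioc (a + 1) (b + H) with hI
  have hcard : (I.card : ℝ) ≤ (b : ℝ) - a + H := by
    rw [hI, Nat.card_Ioc]
    have : (((b + H - (a + 1) : ℕ)) : ℝ) ≤ ((b + H - a : ℕ) : ℝ) := by exact_mod_cast by omega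
    have h2 : ((b + H - a : ℕ) : ℝ) = (b : ℝ) + H - a := by
      rw [Nat.cast_sub (by omega)]; push_cast; ring
    linarith
  have h1 : (H : ℂ) * S = ∑ m ∈ I, ∑ h ∈ Finset.range H, yy z a b H (m + h) := by
    rw [Finset.sum_comm, Finset.sum_congr rfl (fun h hh => sum_shift z a b H h
      (Finset.mem_range.1 hh)), Finset.sum_const, Finset.card_range, nsmul_eq_mul]
  have h2 : ((H : ℝ) * ‖S‖) ^ 2 ≤ I.card *
      ∑ m ∈ I, ‖∑ h ∈ Finset.range H, yy z a b H (m + h)‖ ^ 2 := by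
    have h3 : (H : ℝ) * ‖S‖ ≤ ∑ m ∈ I, ‖∑ h ∈ Finset.range H, yy z a b H (m + h)‖ := by
      have : (H : ℝ) * ‖S‖ = ‖(H : ℂ) * S‖ := by rw [norm_mul, Complex.norm_natCast]
      rw [this, h1]
      exact norm_sum_le _ _
    have h4 := pow_le_pow_left₀ (by positivity) h3 2
    exact h4.trans (by
      have := @sq_sum_le_card_mul_sum_sq ℕ ℝ _ _ _ _ I
        (fun m => ‖∑ h ∈ Finset.range H, yy z a b H (m + h)‖)
      exact this)
  have h5 : ∑ m ∈ I, ‖∑ h ∈ Finset.range H, yy z a b H (m + h)‖ ^ 2 ≤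
      ∑ h1 ∈ Finset.range H, ∑ h2 ∈ Finset.range H,
        (if h2 ≤ h1 then corr z a b (h1 - h2) else corr z a b (h2 - h1)) := by
    have e : ((∑ m ∈ I, ‖∑ h ∈ Finset.range H, yy z a b H (m + h)‖ ^ 2 : ℝ) : ℂ) =
        ∑ h1 ∈ Finset.range H, ∑ h2 ∈ Finset.range H,
          ∑ m ∈ I, yy z a b H (m + h1) * conj (yy z a b H (m + h2)) := by
      push_cast
      have : ∀ m ∈ I, ((‖∑ h ∈ Finset.range H, yy z a b H (m + h)‖ : ℂ)) ^ 2 =
          ∑ h1 ∈ Finset.range H, ∑ h2 ∈ Finset.range H,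
            yy z a b H (m + h1) * conj (yy z a b H (m + h2)) := by
        intro m _
        rw [← Complex.mul_conj', map_sum, Finset.sum_mul_sum]
      rw [Finset.sum_congr rfl this, Finset.sum_comm]
      refine Finset.sum_congr rfl (fun h1 _ => ?_)
      rw [Finset.sum_comm]
    have hnn : 0 ≤ ∑ m ∈ I, ‖∑ h ∈ Finset.range H, yy z a b H (m + h)‖ ^ 2 :=
      Finset.sum_nonneg (fun _ _ => by positivity)
    have e2 : ∑ m ∈ I, ‖∑ h ∈ Finset.range H, yy z a b H (m + h)‖ ^ 2 =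
        ‖((∑ m ∈ I, ‖∑ h ∈ Finset.range H, yy z a b H (m + h)‖ ^ 2 : ℝ) : ℂ)‖ := by
      rw [Complex.norm_real, Real.norm_of_nonneg hnn]
    rw [e2, e]
    refine (norm_sum_le _ _).trans (Finset.sum_le_sum (fun h1 hh1 => ?_))
    refine (norm_sum_le _ _).trans (Finset.sum_le_sum (fun h2 hh2 => ?_))
    rw [pair_le z a b H h1 h2 (Finset.mem_range.1 hh1) (Finset.mem_range.1 hh2)]
  have h6 : ∑ h1 ∈ Finset.range H, ∑ h2 ∈ Finset.range H,
        (if h2 ≤ h1 then corr z a b (h1 - h2) else corr z a b (h2 - h1)) ≤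
      H * (((b : ℝ) - a) + 2 * ∑ d ∈ Finset.Ico 1 H, corr z a b d) := by
    have h0 : corr z a b 0 ≤ (b : ℝ) - a := by
      unfold corr
      refine (norm_sum_le _ _).trans ?_
      calc ∑ n ∈ Finset.Ioc a (b - 0), ‖z (n + 0) * conj (z n)‖ ≤
            ∑ n ∈ Finset.Ioc a (b - 0), (1 : ℝ) := by
            refine Finset.sum_le_sum (fun n _ => ?_)
            rw [norm_mul, Complex.norm_conj]
            have := hz n
            have h8 : ‖z (n + 0)‖ ≤ 1 := hz _
            nlinarith [norm_nonneg (z n), norm_nonneg (z (n + 0))]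
        _ = (b : ℝ) - a := by
            rw [Finset.sum_const, Nat.card_Ioc, nsmul_eq_mul, mul_one, Nat.sub_zero,
              Nat.cast_sub hab.le]
    calc _ ≤ ∑ h1 ∈ Finset.range H, (corr z a b 0 + 2 * ∑ d ∈ Finset.Ico 1 H, corr z a b d) :=
          Finset.sum_le_sum (fun h1 hh1 => row_le (corr z a b) (corr_nonneg z a b) H h1
            (Finset.mem_range.1 hh1))
      _ = H * (corr z a b 0 + 2 * ∑ d ∈ Finset.Ico 1 H, corr z a b d) := by
          rw [Finset.sum_const, Finset.card_range, nsmul_eq_mul]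
      _ ≤ _ := by
          apply mul_le_mul_of_nonneg_left _ (by positivity)
          linarith
  have hHpos : (0 : ℝ) < H := by exact_mod_cast hH
  have hba : (0 : ℝ) < (b : ℝ) - a := by
    have : (a : ℝ) < b := by exact_mod_cast hab
    linarith
  have hsum : 0 ≤ ∑ d ∈ Finset.Ico 1 H, corr z a b d :=
    Finset.sum_nonneg (fun d _ => corr_nonneg z a b d)
  have h7 : ((H : ℝ) * ‖S‖) ^ 2 ≤ ((b : ℝ) - a + H) *
      (H * (((b : ℝ) - a) + 2 * ∑ d ∈ Finset.Ico 1 H, corr z a b d)) := by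
    refine h2.trans ?_
    have h8 := h5.trans h6
    have h9 : 0 ≤ ∑ m ∈ I, ‖∑ h ∈ Finset.range H, yy z a b H (m + h)‖ ^ 2 :=
      Finset.sum_nonneg (fun _ _ => by positivity)
    calc _ ≤ ((b : ℝ) - a + H) * ∑ m ∈ I, ‖∑ h ∈ Finset.range H, yy z a b H (m + h)‖ ^ 2 :=
          mul_le_mul_of_nonneg_right hcard h9
      _ ≤ _ := mul_le_mul_of_nonneg_left h8 (by positivity)
  have h10 : (H : ℝ) * ((H : ℝ) * ‖S‖ ^ 2) ≤ H * (((b : ℝ) - a + H) *
      (((b : ℝ) - a) + 2 * ∑ d ∈ Finset.Ico 1 H, corr z a b d)) := by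
    calc (H : ℝ) * ((H : ℝ) * ‖S‖ ^ 2) = ((H : ℝ) * ‖S‖) ^ 2 := by ring
      _ ≤ _ := h7
      _ = _ := by ring
  exact le_of_mul_le_mul_left h10 hHpos

end Pool.Agent.Helper1.KSZ
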