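import Pool.Agent.Helper1.KSZ.NSum

/-! Kusmin-Landau for the sums `∑ n^(-it)`, partial summation and dyadic decomposition
(project KSZ). -/

set_option autoImplicit false
open scoped ComplexConjugate Nat

namespace Pool.Agent.Helper1.KSZ

open Pool.Agent.Helper10.QRH Pool.Agent.Helper64.QRH

theorem ee_add_one (x : ℝ) : ee (x + 1) = ee x := by
  have := ee_sub_int x (-1)
  simpa using this

/-- Kusmin-Landau: for `X ≥ t` the block sum is `≪ X / t`. -/
theorem block_KL (t : ℝ) (X M : ℕ) (ht : 0 < t) (htX : t ≤ X) (hXM : X ≤ M) (hM2 : M ≤ 2 * X) :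
    ‖BS t X M‖ ≤ 60 * (X / t) := by
  have hXr0 : (0 : ℝ) < X := by linarith
  have hX1 : 1 ≤ X := by
    have : (0 : ℕ) < X := by exact_mod_cast hXr0
    omega
  have hX1r : (1 : ℝ) ≤ X := by exact_mod_cast hX1
  rcases hXM.eq_or_lt with rfl | hXM
  · unfold BS; simp only [Finset.Ioc_self, Finset.sum_empty, norm_zero]; positivity
  have hpi := Real.pi_pos
  have hpi3 := Real.pi_gt_three
  have hpi4 := Real.pi_lt_four
  obtain ⟨N, hN⟩ : ∃ N, M = X + (N + 1) := ⟨M - X - 1, by omega⟩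
  set z : ℕ → ℂ := fun n => ee (FL t 0 ((X + 1 + n : ℕ) : ℝ)) with hz
  set x : ℕ → ℝ := fun n => FL t 0 ((X + 1 + (n + 1) : ℕ) : ℝ) - FL t 0 ((X + 1 + n : ℕ) : ℝ) + 1 with hx
  have hsum : BS t X M = ∑ n ∈ Finset.range (N + 1), z n := by
    rw [BS_eq]
    refine Finset.sum_bij' (fun n _ => n - (X + 1)) (fun n _ => X + 1 + n) ?_ ?_ ?_ ?_ ?_
    · intro n hn; simp only [Finset.mem_Ioc, Finset.mem_range] at hn ⊢; omega
    · intro n hn; simp only [Finset.mem_Ioc, Finset.mem_range] at hn ⊢; omega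
    · intro n hn; simp only [Finset.mem_Ioc] at hn; omega
    · intro n hn; omega
    · intro n hn
      simp only [Finset.mem_Ioc] at hn
      rw [hz]
      show _ = ee (FL t 0 ((X + 1 + (n - (X + 1)) : ℕ) : ℝ))
      rw [show X + 1 + (n - (X + 1)) = n by omega]
  -- formula for x
  have hxv : ∀ n, x n = 1 - (t / (2 * Real.pi)) * Real.log (1 + 1 / ((X : ℝ) + 1 + n)) := by
    intro n
    have h1 : (0 : ℝ) < (X : ℝ) + 1 + n := by positivity
    have h2 : (0 : ℝ) < (X : ℝ) + 1 + (n + 1) := by positivity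
    have e : 1 + 1 / ((X : ℝ) + 1 + n) = ((X : ℝ) + 1 + (n + 1)) / ((X : ℝ) + 1 + n) := by
      field_simp; ring
    rw [hx, e, Real.log_div h2.ne' h1.ne']
    show -(t / (2 * Real.pi)) * Real.log ((X + 1 + (n + 1) : ℕ) : ℝ) -
      -(t / (2 * Real.pi)) * Real.log ((X + 1 + n : ℕ) : ℝ) + 1 = _
    push_cast
    ring
  set D : ℝ := t / (30 * X) with hD
  have hD0 : 0 < D := by positivity
  have hD1 : D ≤ 1 / 30 := by
    rw [hD, div_le_div_iff₀ (by positivity) (by norm_num)]; linarith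
  have hxb : ∀ n ≤ N, D ≤ x n ∧ x n ≤ 1 - D := by
    intro n hn
    rw [hxv n]
    have h1 : (0 : ℝ) < (X : ℝ) + 1 + n := by positivity
    have hnM : (X : ℝ) + 1 + n ≤ 2 * X := by
      have : X + 1 + n ≤ 2 * X := by omega
      exact_mod_cast this
    have hup : Real.log (1 + 1 / ((X : ℝ) + 1 + n)) ≤ 1 / ((X : ℝ) + 1 + n) := by
      have := Real.log_le_sub_one_of_pos (show 0 < 1 + 1 / ((X : ℝ) + 1 + n) by positivity)
      linarith
    have hlow : 1 / ((X : ℝ) + 1 + n + 1) ≤ Real.log (1 + 1 / ((X : ℝ) + 1 + n)) := by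
      have := Real.one_sub_inv_le_log_of_pos (show 0 < 1 + 1 / ((X : ℝ) + 1 + n) by positivity)
      refine le_trans (le_of_eq ?_) this
      field_simp
      ring
    constructor
    · have h2 : t / (2 * Real.pi) * Real.log (1 + 1 / ((X : ℝ) + 1 + n)) ≤ 1 / 6 := by
        calc t / (2 * Real.pi) * Real.log (1 + 1 / ((X : ℝ) + 1 + n)) ≤
              t / (2 * 3) * (1 / ((X : ℝ) + 1 + n)) := by
              have hl0 : 0 ≤ Real.log (1 + 1 / ((X : ℝ) + 1 + n)) :=
                Real.log_nonneg (by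
                  have : 0 ≤ 1 / ((X : ℝ) + 1 + n) := by positivity
                  linarith)
              gcongr
          _ ≤ t / (2 * 3) * (1 / X) := by
              gcongr
              have : (0 : ℝ) ≤ n := Nat.cast_nonneg n
              linarith
          _ = (t / X) / 6 := by ring
          _ ≤ 1 / 6 := by
              have : t / X ≤ 1 := by rw [div_le_one hXr0]; exact htX
              linarith
      linarith
    · have h2 : D ≤ t / (2 * Real.pi) * Real.log (1 + 1 / ((X : ℝ) + 1 + n)) := by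
        calc D ≤ t / (2 * 4) * (1 / (3 * X)) := by
              rw [hD, div_mul_div_comm, div_le_div_iff₀ (by positivity) (by positivity)]
              nlinarith
          _ ≤ t / (2 * Real.pi) * (1 / ((X : ℝ) + 1 + n + 1)) := by
              gcongr
              linarith
          _ ≤ _ := by gcongr
      linarith
  have hmono : ∀ n < N, x n ≤ x (n + 1) := by
    intro n _
    rw [hxv, hxv]
    have : Real.log (1 + 1 / ((X : ℝ) + 1 + (n + 1 : ℕ))) ≤ Real.log (1 + 1 / ((X : ℝ) + 1 + n)) := by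
      apply Real.log_le_log (by positivity)
      push_cast
      gcongr
      linarith
    have h3 : 0 < t / (2 * Real.pi) := by positivity
    have := mul_le_mul_of_nonneg_left this h3.le
    linarith
  have hstep : ∀ n ≤ N, z (n + 1) = z n * ee (x n) := by
    intro n _
    rw [hx]
    show z (n + 1) = z n * ee (_ + 1)
    rw [ee_add_one]
    show ee (FL t 0 ((X + 1 + (n + 1) : ℕ) : ℝ)) = ee (FL t 0 ((X + 1 + n : ℕ) : ℝ)) * ee _
    rw [← ee_add]
    congr 1
    ring
  have := KL hD0 (by linarith) z x N (fun n => (norm_ee _).le) hxb hmono hstep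
  rw [hsum]
  refine this.trans (le_of_eq ?_)
  rw [hD]
  field_simp
  norm_num

/-- partial summation against a nonincreasing weight -/
theorem abel_le (z : ℕ → ℂ) (w : ℕ → ℝ) (X M : ℕ) (B : ℝ) (hXM : X ≤ M)
    (hw : ∀ n, X < n → n < M → w (n + 1) ≤ w n) (hw0 : ∀ n, X < n → n ≤ M → 0 ≤ w n) (hw1 : 0 ≤ w (X + 1))
    (hB : ∀ M', X ≤ M' → M' ≤ M → ‖∑ n ∈ Finset.Ioc X M', z n‖ ≤ B) :
    ‖∑ n ∈ Finset.Ioc X M, (w n : ℂ) * z n‖ ≤ w (X + 1) * B := by
  have hB0 : 0 ≤ B := (norm_nonneg _).trans (hB X le_rfl hXM)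
  rcases hXM.eq_or_lt with rfl | hXM
  · simp only [Finset.Ioc_self, Finset.sum_empty, norm_zero]; positivity
  have key : ∀ M', X + 1 ≤ M' → M' ≤ M →
      ‖∑ n ∈ Finset.Ioc X M', (w n : ℂ) * z n - w M' * ∑ n ∈ Finset.Ioc X M', z n‖ ≤
        (w (X + 1) - w M') * B := by
    intro M' h1
    induction M', h1 using Nat.le_induction with
    | base =>
      intro _
      rw [Finset.sum_Ioc_succ_top (by omega), Finset.sum_Ioc_succ_top (by omega)]
      simp
    | succ M' h1 ih =>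
      intro h2
      have ih' := ih (by omega)
      rw [Finset.sum_Ioc_succ_top (by omega), Finset.sum_Ioc_succ_top (by omega)]
      have e : ∑ n ∈ Finset.Ioc X M', (w n : ℂ) * z n + (w (M' + 1) : ℂ) * z (M' + 1) -
          w (M' + 1) * (∑ n ∈ Finset.Ioc X M', z n + z (M' + 1)) =
          (∑ n ∈ Finset.Ioc X M', (w n : ℂ) * z n - w M' * ∑ n ∈ Finset.Ioc X M', z n) +
          ((w M' - w (M' + 1) : ℝ) : ℂ) * ∑ n ∈ Finset.Ioc X M', z n := by
        push_cast; ring
      rw [e]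
      refine (norm_add_le _ _).trans ?_
      have h3 : ‖((w M' - w (M' + 1) : ℝ) : ℂ) * ∑ n ∈ Finset.Ioc X M', z n‖ ≤
          (w M' - w (M' + 1)) * B := by
        rw [norm_mul, Complex.norm_real, Real.norm_of_nonneg (by linarith [hw M' (by omega) (by omega)])]
        exact mul_le_mul_of_nonneg_left (hB M' (by omega) (by omega))
          (by linarith [hw M' (by omega) (by omega)])
      linarith
  have h1 := key M (by omega) le_rfl
  have h2 : ‖(w M : ℂ) * ∑ n ∈ Finset.Ioc X M, z n‖ ≤ w M * B := by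
    rw [norm_mul, Complex.norm_real, Real.norm_of_nonneg (hw0 M hXM le_rfl)]
    exact mul_le_mul_of_nonneg_left (hB M hXM.le le_rfl) (hw0 M hXM le_rfl)
  calc _ = ‖(∑ n ∈ Finset.Ioc X M, (w n : ℂ) * z n - w M * ∑ n ∈ Finset.Ioc X M, z n) +
        (w M : ℂ) * ∑ n ∈ Finset.Ioc X M, z n‖ := by congr 1; ring
    _ ≤ _ := norm_add_le _ _
    _ ≤ (w (X + 1) - w M) * B + w M * B := add_le_add h1 h2
    _ = _ := by ring

/-- `n^(-(σ+it)) = n^(-σ) n^(-it)` -/
theorem cpow_split (σ t : ℝ) {n : ℕ} (hn : 0 < n) :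
    (n : ℂ) ^ (-((σ : ℂ) + t * Complex.I)) = (((n : ℝ) ^ (-σ) : ℝ) : ℂ) * (n : ℂ) ^ (-(t * Complex.I)) := by
  have hn' : (n : ℂ) ≠ 0 := by exact_mod_cast hn.ne'
  rw [neg_add, Complex.cpow_add _ _ hn', Complex.ofReal_cpow (by positivity)]
  push_cast
  rfl

/-- block of the zeta series -/
theorem block_sigma (σ t : ℝ) (hσ : 0 ≤ σ) (X M : ℕ) (hX : 1 ≤ X) (hXM : X ≤ M) (B : ℝ)
    (hB : ∀ M', X ≤ M' → M' ≤ M → ‖BS t X M'‖ ≤ B) :
    ‖∑ n ∈ Finset.Ioc X M, (n : ℂ) ^ (-((σ : ℂ) + t * Complex.I))‖ ≤ (X : ℝ) ^ (-σ) * B := by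
  have hB0 : 0 ≤ B := (norm_nonneg _).trans (hB X le_rfl hXM)
  have hXr : (0 : ℝ) < X := by exact_mod_cast hX
  have h := abel_le (fun n => (n : ℂ) ^ (-(t * Complex.I))) (fun n => (n : ℝ) ^ (-σ)) X M B hXM
    (by
      intro n hn _
      have : (0 : ℝ) < n := by exact_mod_cast (by omega : 0 < n)
      exact Real.rpow_le_rpow_of_nonpos this (by push_cast; linarith) (by linarith))
    (by intro n _ _; positivity) (by positivity) hB
  have e : ∑ n ∈ Finset.Ioc X M, (n : ℂ) ^ (-((σ : ℂ) + t * Complex.I)) =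
      ∑ n ∈ Finset.Ioc X M, (((n : ℝ) ^ (-σ) : ℝ) : ℂ) * (n : ℂ) ^ (-(t * Complex.I)) := by
    refine Finset.sum_congr rfl (fun n hn => ?_)
    rw [Finset.mem_Ioc] at hn
    exact cpow_split σ t (by omega)
  rw [e]
  refine h.trans (mul_le_mul_of_nonneg_right ?_ hB0)
  exact Real.rpow_le_rpow_of_nonpos hXr (by push_cast; linarith) (by linarith)

/-- dyadic decomposition -/
theorem dyadic_le (a : ℕ → ℂ) (B : ℕ → ℝ) (hB0 : ∀ i, 0 ≤ B i) (L : ℕ) :
    ∀ N : ℕ, N ≤ 2 ^ L → (∀ i M, i < L → 2 ^ i ≤ M → M ≤ 2 ^ (i + 1) → M ≤ N →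
      ‖∑ n ∈ Finset.Ioc (2 ^ i) M, a n‖ ≤ B i) →
    ‖∑ n ∈ Finset.Ioc 0 N, a n‖ ≤ ‖a 1‖ + ∑ i ∈ Finset.range L, B i := by
  induction L with
  | zero =>
    intro N hN _
    rw [pow_zero] at hN
    interval_cases N
    · simp
    · simp
  | succ L ih =>
    intro N hN hB
    rcases le_total N (2 ^ L) with h | h
    · refine (ih N h (fun i M hi h1 h2 h3 => hB i M (by omega) h1 h2 h3)).trans ?_
      rw [Finset.sum_range_succ]
      linarith [hB0 L]
    · have h1 := ih (2 ^ L) le_rfl (fun i M hi h1 h2 h3 => hB i M (by omega) h1 h2 (h3.trans h))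
      have h2 := hB L N (by omega) h hN le_rfl
      have e : ∑ n ∈ Finset.Ioc 0 N, a n = ∑ n ∈ Finset.Ioc 0 (2 ^ L), a n +
          ∑ n ∈ Finset.Ioc (2 ^ L) N, a n := by
        rw [← Finset.sum_union]
        · rw [Finset.Ioc_union_Ioc_eq_Ioc (Nat.zero_le _) h]
        · rw [Finset.disjoint_left]
          intro x hx hx2
          rw [Finset.mem_Ioc] at hx hx2
          omega
      rw [e, Finset.sum_range_succ]
      refine (norm_add_le _ _).trans ?_
      linarith

end Pool.Agent.Helper1.KSZ
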