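import Pool.Agent.Helper1.KSZ.ZetaApprox

/-! Growth of zeta on the lines `σ = 1 - k/(2K-2)` and near the line `σ = 1` (project KSZ). -/

set_option autoImplicit false
open scoped ComplexConjugate Nat
open Filter Topology

namespace Pool.Agent.Helper1.KSZ

open Pool.Agent.Helper10.QRH Pool.Agent.Helper64.QRH Pool.Agent.Helper69.QRH

/-- from block bounds to zeta -/
theorem zeta_le_blocks {σ t W : ℝ} (hσ : 1 / 2 ≤ σ) (hσ2 : σ ≤ 2) (ht : 2 ≤ t) (hW : 1 ≤ W)
    (h : ∀ i M : ℕ, (2 : ℝ) ^ i ≤ t → 2 ^ i ≤ M → M ≤ 2 ^ (i + 1) →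
      ‖∑ n ∈ Finset.Ioc (2 ^ i) M, (n : ℂ) ^ (-((σ : ℂ) + t * Complex.I))‖ ≤ W) :
    ‖riemannZeta ((σ : ℂ) + t * Complex.I)‖ ≤ 500 * W * Real.log t := by
  have ht0 : 0 < t := by linarith
  obtain ⟨L, hL1, hL2⟩ : ∃ L : ℕ, t ^ 2 ≤ (2 : ℝ) ^ L ∧ (2 : ℝ) ^ L ≤ 2 * t ^ 2 := by
    have hex : ∃ L : ℕ, t ^ 2 ≤ (2 : ℝ) ^ L := by
      obtain ⟨n, hn⟩ := pow_unbounded_of_one_lt (t ^ 2) (by norm_num : (1 : ℝ) < 2)
      exact ⟨n, hn.le⟩
    classical
    refine ⟨Nat.find hex, Nat.find_spec hex, ?_⟩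
    have h0 : Nat.find hex ≠ 0 := by
      intro h0
      have := Nat.find_spec hex
      rw [h0, pow_zero] at this
      have h9 : (2 : ℝ) ^ 2 ≤ t ^ 2 := pow_le_pow_left₀ (by norm_num) ht 2
      linarith
    have h1 := Nat.find_min hex (m := Nat.find hex - 1) (by omega)
    push Not at h1
    have h2 : (2 : ℝ) ^ Nat.find hex = 2 * 2 ^ (Nat.find hex - 1) := by
      conv_lhs => rw [show Nat.find hex = (Nat.find hex - 1) + 1 by omega]
      rw [pow_succ]; ring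
    rw [h2]
    linarith
  have hN1 : t ^ 2 ≤ ((2 ^ L : ℕ) : ℝ) := by push_cast; exact hL1
  have hN2 : ((2 ^ L : ℕ) : ℝ) ≤ 2 * t ^ 2 := by push_cast; exact hL2
  have happ := zeta_approx_two hσ hσ2 (by linarith) (2 ^ L) hN1 hN2
  have hdy := dyadic_le (fun n => (n : ℂ) ^ (-((σ : ℂ) + t * Complex.I))) (fun _ => 90 * W)
    (fun _ => by positivity) L (2 ^ L) le_rfl (by
      intro i M hi h1 h2 h3
      rcases le_or_gt ((2 : ℝ) ^ i) t with hc | hc
      · exact (h i M hc h1 h2).trans (by linarith)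
      · have hb := block_sigma σ t (by linarith) (2 ^ i) M (Nat.one_le_two_pow) h1
          (60 * (((2 ^ i : ℕ) : ℝ) / t)) (by
            intro M' h4 h5
            refine block_KL t (2 ^ i) M' ht0 (by push_cast; exact hc.le) h4 (h5.trans ?_)
            rw [pow_succ] at h2
            omega)
        refine hb.trans ?_
        push_cast
        have hX : (0 : ℝ) < 2 ^ i := by positivity
        have hX1 : (1 : ℝ) ≤ 2 ^ i := one_le_pow₀ (by norm_num)
        have e1 : ((2 : ℝ) ^ i) ^ (-σ) * (60 * (2 ^ i / t)) = 60 * (((2 : ℝ) ^ i) ^ (1 - σ) / t) := by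
          rw [sub_eq_add_neg, Real.rpow_add hX, Real.rpow_one]; ring
        rw [e1]
        have e2 : ((2 : ℝ) ^ i) ^ (1 - σ) ≤ ((2 : ℝ) ^ i) ^ (1 / 2 : ℝ) :=
          Real.rpow_le_rpow_of_exponent_le hX1 (by linarith)
        have e3 : ((2 : ℝ) ^ i) ≤ (1.5 * t) ^ 2 := by
          have : (2 : ℝ) ^ i ≤ 2 ^ L := pow_le_pow_right₀ (by norm_num) hi.le
          have h9 : (1.5 * t) ^ 2 = 2 * t ^ 2 + 0.25 * t ^ 2 := by ring
          have h10 : 0 ≤ 0.25 * t ^ 2 := by positivity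
          rw [h9]; linarith
        have e4 : ((2 : ℝ) ^ i) ^ (1 / 2 : ℝ) ≤ 1.5 * t := by
          rw [← Real.sqrt_eq_rpow]
          exact Real.sqrt_le_iff.2 ⟨by positivity, e3⟩
        calc 60 * (((2 : ℝ) ^ i) ^ (1 - σ) / t) ≤ 60 * (1.5 * t / t) := by gcongr; linarith
          _ = 90 * 1 := by field_simp; norm_num
          _ ≤ 90 * W := by linarith)
  rw [Finset.sum_const, Finset.card_range, nsmul_eq_mul] at hdy
  have h1 : ‖((1 : ℕ) : ℂ) ^ (-((σ : ℂ) + t * Complex.I))‖ = 1 := by simp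
  rw [h1] at hdy
  have hlogt : Real.log 2 ≤ Real.log t := Real.log_le_log (by norm_num) ht
  have hl2 := Real.log_two_gt_d9
  have hLb : (L : ℝ) ≤ 5 * Real.log t := by
    have := Real.log_le_log (by positivity) hL2
    rw [Real.log_pow, Real.log_mul (by norm_num) (by positivity), Real.log_pow] at this
    push_cast at this
    have h9 : (L : ℝ) * 0.69 ≤ L * Real.log 2 :=
      mul_le_mul_of_nonneg_left (by linarith) (Nat.cast_nonneg L)
    have h10 : (L : ℝ) * 0.69 ≤ 3 * Real.log t := by linarith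
    linarith
  have hmain : ‖riemannZeta ((σ : ℂ) + t * Complex.I)‖ ≤ 9 + (1 + L * (90 * W)) := by
    calc ‖riemannZeta ((σ : ℂ) + t * Complex.I)‖ = ‖(riemannZeta ((σ : ℂ) + t * Complex.I) -
          ∑ n ∈ Finset.Ioc (0 : ℕ) (2 ^ L), (n : ℂ) ^ (-((σ : ℂ) + t * Complex.I))) +
          ∑ n ∈ Finset.Ioc (0 : ℕ) (2 ^ L), (n : ℂ) ^ (-((σ : ℂ) + t * Complex.I))‖ := by congr 1; ring
      _ ≤ _ := norm_add_le _ _
      _ ≤ _ := add_le_add happ hdy
  refine hmain.trans ?_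
  have h5 : (L : ℝ) * (90 * W) ≤ 5 * Real.log t * (90 * W) := by gcongr
  have h6 : 10 ≤ 20 * Real.log t := by linarith
  have h7 : 20 * Real.log t ≤ 20 * Real.log t * W := by
    have : 0 ≤ 20 * Real.log t := by linarith
    exact le_mul_of_one_le_right this hW
  have h8 : 5 * Real.log t * (90 * W) = 450 * (Real.log t * W) := by ring
  have h9 : 20 * Real.log t * W = 20 * (Real.log t * W) := by ring
  have h10 : 500 * W * Real.log t = 500 * (Real.log t * W) := by ring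
  have h11 : 0 ≤ Real.log t * W := mul_nonneg (by linarith) (by linarith)
  rw [h8] at h5
  rw [h9] at h7
  rw [h10]
  linarith

/-- `ζ(σ+it) ≪ t^{1/(2K-2)} log t` for `σ ≥ max(1/2, 1 - k/(2K-2))`, `k = j+2` -/
theorem zeta_growth (j : ℕ) : ∃ C : ℝ, 0 < C ∧ ∀ σ t : ℝ, 1 / 2 ≤ σ → ll j ≤ σ → σ ≤ 2 → 2 ≤ t →
    ‖riemannZeta ((σ : ℂ) + t * Complex.I)‖ ≤ C * t ^ kap j * Real.log t := by
  obtain ⟨C, hC, h⟩ := block_all j
  refine ⟨500 * (C + 1), by positivity, fun σ t hσ hll hσ2 ht => ?_⟩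
  have ht0 : 0 < t := by linarith
  have ht1 : 1 ≤ t ^ kap j := Real.one_le_rpow (by linarith) (kap_pos j).le
  have := zeta_le_blocks hσ hσ2 ht (W := (C + 1) * t ^ kap j) (one_le_mul_of_one_le_of_one_le (by linarith) ht1) (by
    intro i M h1 h2 h3
    have hb := block_sigma σ t (by linarith) (2 ^ i) M (Nat.one_le_two_pow) h2
      (C * ((((2 ^ i : ℕ) : ℝ)) ^ ll j * t ^ kap j)) (by
        intro M' h4 h5
        refine h t (2 ^ i) M' Nat.one_le_two_pow h4 (h5.trans ?_) (by push_cast; exact h1)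
        rw [pow_succ] at h3
        omega)
    refine hb.trans ?_
    push_cast
    have hX : (0 : ℝ) < 2 ^ i := by positivity
    have hX1 : (1 : ℝ) ≤ 2 ^ i := one_le_pow₀ (by norm_num)
    have e1 : ((2 : ℝ) ^ i) ^ (-σ) * (((2 : ℝ) ^ i) ^ ll j) ≤ 1 := by
      rw [← Real.rpow_add hX]
      exact Real.rpow_le_one_of_one_le_of_nonpos hX1 (by linarith)
    calc ((2 : ℝ) ^ i) ^ (-σ) * (C * (((2 : ℝ) ^ i) ^ ll j * t ^ kap j)) =
          (((2 : ℝ) ^ i) ^ (-σ) * (((2 : ℝ) ^ i) ^ ll j)) * (C * t ^ kap j) := by ring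
      _ ≤ 1 * (C * t ^ kap j) := by gcongr
      _ ≤ _ := by rw [one_mul]; gcongr; linarith)
  refine this.trans (le_of_eq (by ring))

/-- growth near the line `σ = 1`: `ζ(σ+it) ≪ t^{2η/k} log t` for `σ ≥ 1 - η`, `η ≤ k κ_j / 2` -/
theorem zeta_near_one (j : ℕ) : ∃ C : ℝ, 0 < C ∧ ∀ η σ t : ℝ, 0 ≤ η → η ≤ 1 / 2 →
    η ≤ (j + 2) * kap j / 2 → 1 - η ≤ σ → σ ≤ 2 → 2 ≤ t →
    ‖riemannZeta ((σ : ℂ) + t * Complex.I)‖ ≤ C * t ^ (2 * η / (j + 2)) * Real.log t := by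
  obtain ⟨C, hC, h⟩ := block_all j
  refine ⟨500 * (C + 1), by positivity, fun η σ t hη hη2 hηk hσ hσ2 ht => ?_⟩
  have ht0 : 0 < t := by linarith
  have hj : (0 : ℝ) < (j : ℝ) + 2 := by positivity
  have ht1 : 1 ≤ t ^ (2 * η / (j + 2)) := Real.one_le_rpow (by linarith) (by positivity)
  have hk := kap_pos j
  have := zeta_le_blocks (by linarith) hσ2 ht (W := (C + 1) * t ^ (2 * η / (j + 2))) (one_le_mul_of_one_le_of_one_le (by linarith) ht1) (by
    intro i M h1 h2 h3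
    have hX : (0 : ℝ) < 2 ^ i := by positivity
    have hX1 : (1 : ℝ) ≤ 2 ^ i := one_le_pow₀ (by norm_num)
    rcases le_or_gt ((2 : ℝ) ^ i) (t ^ (2 / ((j : ℝ) + 2))) with hc | hc
    · have hb := block_sigma σ t (by linarith) (2 ^ i) M (Nat.one_le_two_pow) h2
        ((2 : ℝ) ^ i) (by
          intro M' h4 h5
          refine (BS_trivial t h4).trans ?_
          have : M' ≤ 2 ^ (i + 1) := h5.trans h3
          have h6 : (M' : ℝ) ≤ 2 ^ (i + 1) := by exact_mod_cast this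
          rw [pow_succ] at h6
          push_cast
          linarith)
      refine hb.trans ?_
      push_cast
      have e1 : ((2 : ℝ) ^ i) ^ (-σ) * (2 : ℝ) ^ i = ((2 : ℝ) ^ i) ^ (1 - σ) := by
        rw [sub_eq_add_neg, Real.rpow_add hX, Real.rpow_one]; ring
      rw [e1]
      calc ((2 : ℝ) ^ i) ^ (1 - σ) ≤ ((2 : ℝ) ^ i) ^ η :=
            Real.rpow_le_rpow_of_exponent_le hX1 (by linarith)
        _ ≤ (t ^ (2 / ((j : ℝ) + 2))) ^ η := by gcongr
        _ = 1 * t ^ (2 * η / (j + 2)) := by rw [← Real.rpow_mul ht0.le, one_mul]; congr 1; ring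
        _ ≤ _ := by gcongr; linarith
    · have hb := block_sigma σ t (by linarith) (2 ^ i) M (Nat.one_le_two_pow) h2
        (C * ((((2 ^ i : ℕ) : ℝ)) ^ ll j * t ^ kap j)) (by
          intro M' h4 h5
          refine h t (2 ^ i) M' Nat.one_le_two_pow h4 (h5.trans ?_) (by push_cast; exact h1)
          rw [pow_succ] at h3
          omega)
      refine hb.trans ?_
      push_cast
      have e0 : t ^ kap j ≤ ((2 : ℝ) ^ i) ^ ((j + 2) * kap j / 2) := by
        calc t ^ kap j = (t ^ (2 / ((j : ℝ) + 2))) ^ ((j + 2) * kap j / 2) := by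
              rw [← Real.rpow_mul ht0.le]; congr 1; field_simp
          _ ≤ _ := by gcongr
      have e1 : ((2 : ℝ) ^ i) ^ (-σ) * (((2 : ℝ) ^ i) ^ ll j) * ((2 : ℝ) ^ i) ^ ((j + 2) * kap j / 2) ≤ 1 := by
        rw [← Real.rpow_add hX, ← Real.rpow_add hX]
        apply Real.rpow_le_one_of_one_le_of_nonpos hX1
        unfold ll
        linarith
      calc ((2 : ℝ) ^ i) ^ (-σ) * (C * (((2 : ℝ) ^ i) ^ ll j * t ^ kap j)) =
            (((2 : ℝ) ^ i) ^ (-σ) * (((2 : ℝ) ^ i) ^ ll j)) * t ^ kap j * C := by ring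
        _ ≤ (((2 : ℝ) ^ i) ^ (-σ) * (((2 : ℝ) ^ i) ^ ll j)) * ((2 : ℝ) ^ i) ^ ((j + 2) * kap j / 2) * C := by
            gcongr
        _ ≤ 1 * C := by gcongr
        _ ≤ (C + 1) * 1 := by linarith
        _ ≤ _ := by gcongr)
  refine this.trans (le_of_eq (by ring))

end Pool.Agent.Helper1.KSZ
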