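import Pool.Agent.Helper64.QRH.Vdc
import Pool.Agent.Helper1.KSZ.AProc

/-! van der Corput's `k`-th derivative test, for all `k ≥ 2` (project KSZ). -/

set_option autoImplicit false
open scoped ComplexConjugate

namespace Pool.Agent.Helper1.KSZ

open Pool.Agent.Helper10.QRH Pool.Agent.Helper64.QRH

/-- `κ_j = 1/(2K - 2)`, `K = 2^(j+1)`: exponent of the `(j+2)`-th derivative test -/
noncomputable def kap (j : ℕ) : ℝ := 1 / (2 ^ (j + 2) - 2)

/-- `p_j = 1 - 2/K` -/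
noncomputable def pp (j : ℕ) : ℝ := 1 - 1 / 2 ^ j

theorem two_pow_ge (j : ℕ) : (1 : ℝ) ≤ 2 ^ j := one_le_pow₀ (by norm_num)

theorem den_pos (j : ℕ) : (2 : ℝ) ≤ 2 ^ (j + 2) - 2 := by
  have := two_pow_ge j
  rw [pow_add]; linarith

theorem kap_pos (j : ℕ) : 0 < kap j := by
  unfold kap; have := den_pos j; positivity

theorem kap_le (j : ℕ) : kap j ≤ 1 / 2 := by
  unfold kap; have := den_pos j
  exact one_div_le_one_div_of_le (by norm_num) this

theorem kap_zero : kap 0 = 1 / 2 := by unfold kap; norm_num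

theorem pp_zero : pp 0 = 0 := by unfold pp; norm_num

theorem pp_nonneg (j : ℕ) : 0 ≤ pp j := by
  unfold pp
  have := two_pow_ge j
  have : (1 : ℝ) / 2 ^ j ≤ 1 := by rw [div_le_one (by positivity)]; exact this
  linarith

theorem pp_lt_one (j : ℕ) : pp j ≤ 1 := by
  unfold pp
  have : (0 : ℝ) ≤ 1 / 2 ^ j := by positivity
  linarith

theorem pp_succ (j : ℕ) : 2 * pp (j + 1) = 1 + pp j := by
  unfold pp; rw [pow_succ]; field_simp; ring

theorem kap_succ (j : ℕ) : (1 - 2 * kap (j + 1)) * kap j = 2 * kap (j + 1) := by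
  unfold kap
  have h1 := den_pos j
  have h2 := den_pos (j + 1)
  have h3 : (2 : ℝ) ^ (j + 1 + 2) = 2 * 2 ^ (j + 2) := by ring
  rw [h3] at h2 ⊢
  generalize (2 : ℝ) ^ (j + 2) = K at h1 h2
  have h4 : K - 1 ≠ 0 := by linarith
  have h5 : K - 2 ≠ 0 := by linarith
  rw [show 2 * K - 2 = 2 * (K - 1) by ring]
  field_simp
  ring

/-- the `(j+2)`-th derivative test -/
def KthTest (j : ℕ) : Prop := ∃ C : ℝ, 0 < C ∧ ∀ (F : ℕ → ℝ → ℝ) (a b : ℕ) (lam A : ℝ),
    a < b → 0 < lam → 1 ≤ A →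
    (∀ i < j + 2, ∀ x ∈ Set.Icc (a : ℝ) b, HasDerivAt (F i) (F (i + 1) x) x) →
    (∀ x ∈ Set.Icc (a : ℝ) b, lam ≤ F (j + 2) x ∧ F (j + 2) x ≤ A * lam) →
    ‖∑ n ∈ Finset.Ioc a b, ee (F 0 n)‖ ≤
      C * A * (((b : ℝ) - a) * lam ^ kap j + ((b : ℝ) - a) ^ pp j * lam ^ (-kap j))

theorem kth_zero : KthTest 0 := by
  obtain ⟨C, hC, h⟩ := vdc
  refine ⟨C, hC, fun F a b lam A hab hl hA hd hb => ?_⟩
  have := h (F 0) (F 1) (F 2) a b lam A hab hl hA (hd 0 (by norm_num)) (hd 1 (by norm_num)) hb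
  rw [kap_zero, pp_zero, Real.rpow_zero, one_mul, Real.rpow_neg hl.le, ← Real.sqrt_eq_rpow]
  rw [one_div] at this
  exact this

theorem sum_rpow_neg {s : ℝ} (hs0 : 0 ≤ s) (hs : s ≤ 1 / 2) (M : ℕ) :
    ∑ d ∈ Finset.Ico 1 (M + 1), (d : ℝ) ^ (-s) ≤ 2 * (M : ℝ) ^ (1 - s) := by
  induction M with
  | zero =>
    simp only [zero_add, Finset.Ico_self, Finset.sum_empty, Nat.cast_zero]
    positivity
  | succ M ih =>
    rw [Finset.sum_Ico_succ_top (by omega)]
    have hM : (0 : ℝ) < (M : ℝ) + 1 := by positivity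
    have hb : (1 + (-(1 / ((M : ℝ) + 1)))) ^ (1 - s) ≤ 1 + (1 - s) * (-(1 / ((M : ℝ) + 1))) := by
      apply rpow_one_add_le_one_add_mul_self
      · have : 1 / ((M : ℝ) + 1) ≤ 1 := by rw [div_le_one hM]; linarith [Nat.cast_nonneg (α := ℝ) M]
        linarith
      · linarith
      · linarith
    have e1 : (M : ℝ) = ((M : ℝ) + 1) * (1 + (-(1 / ((M : ℝ) + 1)))) := by field_simp; ring
    have e2 : (M : ℝ) ^ (1 - s) = ((M : ℝ) + 1) ^ (1 - s) * (1 + (-(1 / ((M : ℝ) + 1)))) ^ (1 - s) := by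
      conv_lhs => rw [e1]
      rw [Real.mul_rpow hM.le]
      have : 1 / ((M : ℝ) + 1) ≤ 1 := by rw [div_le_one hM]; linarith [Nat.cast_nonneg (α := ℝ) M]
      linarith
    have hp : 0 < ((M : ℝ) + 1) ^ (1 - s) := Real.rpow_pos_of_pos hM _
    have e3 : ((M : ℝ) + 1) ^ (1 - s) = ((M : ℝ) + 1) * ((M : ℝ) + 1) ^ (-s) := by
      rw [sub_eq_add_neg, Real.rpow_add hM, Real.rpow_one]
    have e4 : (M : ℝ) ^ (1 - s) ≤ ((M : ℝ) + 1) ^ (1 - s) - (1 - s) * ((M : ℝ) + 1) ^ (-s) := by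
      rw [e2]
      calc ((M : ℝ) + 1) ^ (1 - s) * (1 + (-(1 / ((M : ℝ) + 1)))) ^ (1 - s) ≤
          ((M : ℝ) + 1) ^ (1 - s) * (1 + (1 - s) * (-(1 / ((M : ℝ) + 1)))) :=
            mul_le_mul_of_nonneg_left hb hp.le
        _ = _ := by rw [e3]; field_simp; ring
    have hp2 : 0 < ((M : ℝ) + 1) ^ (-s) := Real.rpow_pos_of_pos hM _
    push_cast
    nlinarith

theorem sum_corr_bound {C A N lam : ℝ} (j : ℕ) (hC : 0 < C) (hA : 1 ≤ A) (hN : 1 ≤ N)
    (hl : 0 < lam) (H : ℕ) (hH : 1 ≤ H) (s : ℕ → ℝ)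
    (hs : ∀ d, 1 ≤ d → d < H → s d ≤
      C * A * (N * ((d : ℝ) * lam) ^ kap j + N ^ pp j * ((d : ℝ) * lam) ^ (-kap j))) :
    ∑ d ∈ Finset.Ico 1 H, s d ≤
      C * A * H * (N * ((H : ℝ) * lam) ^ kap j + 2 * (N ^ pp j * ((H : ℝ) * lam) ^ (-kap j))) := by
  have hk := kap_pos j
  have hNp : 0 < N ^ pp j := Real.rpow_pos_of_pos (by linarith) _
  have hHr : (1 : ℝ) ≤ H := by exact_mod_cast hH
  have hH0 : (0 : ℝ) < H := by linarith
  obtain ⟨M, rfl⟩ : ∃ M, H = M + 1 := ⟨H - 1, by omega⟩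
  have h1 : ∑ d ∈ Finset.Ico 1 (M + 1), ((d : ℝ) * lam) ^ kap j ≤
      ((M + 1 : ℕ) : ℝ) * (((M + 1 : ℕ) : ℝ) * lam) ^ kap j := by
    calc _ ≤ ∑ d ∈ Finset.Ico 1 (M + 1), (((M + 1 : ℕ) : ℝ) * lam) ^ kap j := by
          refine Finset.sum_le_sum (fun d hd => ?_)
          rw [Finset.mem_Ico] at hd
          have : (d : ℝ) ≤ ((M + 1 : ℕ) : ℝ) := by exact_mod_cast hd.2.le
          exact Real.rpow_le_rpow (by positivity) (by gcongr) hk.le
      _ = (M : ℝ) * (((M + 1 : ℕ) : ℝ) * lam) ^ kap j := by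
          rw [Finset.sum_const, Nat.card_Ico, nsmul_eq_mul, Nat.add_sub_cancel]
      _ ≤ _ := by
          have : 0 ≤ (((M + 1 : ℕ) : ℝ) * lam) ^ kap j := by positivity
          apply mul_le_mul_of_nonneg_right _ this
          push_cast; linarith
  have h2 : ∑ d ∈ Finset.Ico 1 (M + 1), ((d : ℝ) * lam) ^ (-kap j) ≤
      2 * (((M + 1 : ℕ) : ℝ) * (((M + 1 : ℕ) : ℝ) * lam) ^ (-kap j)) := by
    have hl2 : 0 < lam ^ (-kap j) := Real.rpow_pos_of_pos hl _
    calc _ = (∑ d ∈ Finset.Ico 1 (M + 1), (d : ℝ) ^ (-kap j)) * lam ^ (-kap j) := by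
          rw [Finset.sum_mul]
          refine Finset.sum_congr rfl (fun d _ => ?_)
          rw [Real.mul_rpow (Nat.cast_nonneg _) hl.le]
      _ ≤ (2 * (M : ℝ) ^ (1 - kap j)) * lam ^ (-kap j) := by
          apply mul_le_mul_of_nonneg_right _ hl2.le
          exact sum_rpow_neg hk.le (kap_le j) M
      _ ≤ (2 * ((M + 1 : ℕ) : ℝ) ^ (1 - kap j)) * lam ^ (-kap j) := by
          apply mul_le_mul_of_nonneg_right _ hl2.le
          apply mul_le_mul_of_nonneg_left _ (by norm_num)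
          apply Real.rpow_le_rpow (Nat.cast_nonneg _) (by push_cast; linarith)
          linarith [kap_le j]
      _ = _ := by
          rw [Real.mul_rpow hH0.le hl.le, sub_eq_add_neg, Real.rpow_add hH0, Real.rpow_one]
          ring
  calc _ ≤ ∑ d ∈ Finset.Ico 1 (M + 1),
        C * A * (N * ((d : ℝ) * lam) ^ kap j + N ^ pp j * ((d : ℝ) * lam) ^ (-kap j)) := by
        refine Finset.sum_le_sum (fun d hd => ?_)
        rw [Finset.mem_Ico] at hd
        exact hs d hd.1 hd.2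
    _ = C * A * (N * ∑ d ∈ Finset.Ico 1 (M + 1), ((d : ℝ) * lam) ^ kap j +
        N ^ pp j * ∑ d ∈ Finset.Ico 1 (M + 1), ((d : ℝ) * lam) ^ (-kap j)) := by
        rw [← Finset.mul_sum, Finset.sum_add_distrib, Finset.mul_sum, Finset.mul_sum]
    _ ≤ C * A * (N * (((M + 1 : ℕ) : ℝ) * (((M + 1 : ℕ) : ℝ) * lam) ^ kap j) +
        N ^ pp j * (2 * (((M + 1 : ℕ) : ℝ) * (((M + 1 : ℕ) : ℝ) * lam) ^ (-kap j)))) := by
        gcongr
    _ = _ := by ring

theorem norm_sum_ee_le (f : ℕ → ℝ) (a b : ℕ) (hab : a ≤ b) :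
    ‖∑ n ∈ Finset.Ioc a b, ee (f n)‖ ≤ (b : ℝ) - a := by
  refine (norm_sum_le _ _).trans ?_
  rw [Finset.sum_congr rfl (fun n _ => norm_ee (f n)), Finset.sum_const, Nat.card_Ioc,
    nsmul_eq_mul, mul_one, Nat.cast_sub hab]

theorem conj_ee (x : ℝ) : conj (ee x) = ee (-x) := by
  unfold ee
  rw [← Complex.exp_conj]
  congr 1
  rw [map_mul, map_mul, map_mul, Complex.conj_I, Complex.conj_ofReal, Complex.conj_ofReal,
    Complex.conj_ofNat]
  push_cast; ring

/-- optimisation of `H` -/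
theorem opt {C A N lam S : ℝ} (j : ℕ) (hC : 0 < C) (hA : 1 ≤ A) (hN : 1 ≤ N)
    (hl : 0 < lam) (H : ℕ) (hH : 1 ≤ H) (hHN : (H : ℝ) ≤ N)
    (hH1 : lam ^ (-(2 * kap (j + 1))) ≤ H) (hH2 : (H : ℝ) ≤ 2 * lam ^ (-(2 * kap (j + 1))))
    (h : (H : ℝ) * S ^ 2 ≤ (N + H) * (N + 2 * (C * A * H * (N * ((H : ℝ) * lam) ^ kap j +
      2 * (N ^ pp j * ((H : ℝ) * lam) ^ (-kap j)))))) :
    S ≤ Real.sqrt (2 + 8 * C) * A *
      (N * lam ^ kap (j + 1) + N ^ pp (j + 1) * lam ^ (-kap (j + 1))) := by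
  have hk := kap_pos j
  have hk1 := kap_pos (j + 1)
  have hHr : (1 : ℝ) ≤ H := by exact_mod_cast hH
  have hH0 : (0 : ℝ) < H := by linarith
  have hN0 : 0 < N := by linarith
  set u : ℝ := lam ^ kap (j + 1) with hu
  have hu0 : 0 < u := Real.rpow_pos_of_pos hl _
  have hneg : lam ^ (-kap (j + 1)) = 1 / u := by rw [Real.rpow_neg hl.le, one_div]
  have hneg2 : lam ^ (-(2 * kap (j + 1))) = 1 / u ^ 2 := by
    rw [Real.rpow_neg hl.le, one_div, hu, ← Real.rpow_natCast, ← Real.rpow_mul hl.le]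
    congr 2; push_cast; ring
  have hpos2 : lam ^ (2 * kap (j + 1)) = u ^ 2 := by
    rw [hu, ← Real.rpow_natCast, ← Real.rpow_mul hl.le]
    congr 1; push_cast; ring
  rw [hneg2] at hH1 hH2
  rw [hneg]
  -- (H lam)^kap
  have hlk : (lam ^ (1 - 2 * kap (j + 1))) ^ kap j = u ^ 2 := by
    rw [← Real.rpow_mul hl.le, kap_succ, hpos2]
  have hl3 : lam ^ (1 - 2 * kap (j + 1)) = lam / u ^ 2 := by
    rw [Real.rpow_sub hl, Real.rpow_one, hpos2]
  have hHl1 : lam ^ (1 - 2 * kap (j + 1)) ≤ (H : ℝ) * lam := by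
    rw [hl3, div_eq_mul_one_div, mul_comm]
    exact mul_le_mul_of_nonneg_right hH1 hl.le
  have hHl2 : (H : ℝ) * lam ≤ 2 * lam ^ (1 - 2 * kap (j + 1)) := by
    rw [hl3]
    calc (H : ℝ) * lam ≤ (2 * (1 / u ^ 2)) * lam := mul_le_mul_of_nonneg_right hH2 hl.le
      _ = _ := by ring
  have hl4 : 0 < lam ^ (1 - 2 * kap (j + 1)) := Real.rpow_pos_of_pos hl _
  have hX : ((H : ℝ) * lam) ^ kap j ≤ 2 * u ^ 2 := by
    calc ((H : ℝ) * lam) ^ kap j ≤ (2 * lam ^ (1 - 2 * kap (j + 1))) ^ kap j :=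
          Real.rpow_le_rpow (by positivity) hHl2 hk.le
      _ = 2 ^ kap j * u ^ 2 := by rw [Real.mul_rpow (by norm_num) hl4.le, hlk]
      _ ≤ 2 * u ^ 2 := by
          apply mul_le_mul_of_nonneg_right _ (by positivity)
          calc (2 : ℝ) ^ kap j ≤ 2 ^ (1 : ℝ) :=
                Real.rpow_le_rpow_of_exponent_le (by norm_num) (by linarith [kap_le j])
            _ = 2 := Real.rpow_one 2
  have hY : ((H : ℝ) * lam) ^ (-kap j) ≤ 1 / u ^ 2 := by
    rw [Real.rpow_neg (by positivity), ← one_div]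
    apply one_div_le_one_div_of_le (by positivity)
    rw [← hlk]
    exact Real.rpow_le_rpow hl4.le hHl1 hk.le
  have hH3 : 1 / (H : ℝ) ≤ u ^ 2 := by
    rw [div_le_iff₀ hH0]
    rw [div_le_iff₀ (by positivity)] at hH1
    linarith
  set P : ℝ := N ^ pp (j + 1) with hP
  have hPP : N * N ^ pp j = P ^ 2 := by
    rw [hP, ← Real.rpow_natCast, ← Real.rpow_mul hN0.le]
    nth_rewrite 1 [← Real.rpow_one N]
    rw [← Real.rpow_add hN0]
    congr 1
    have := pp_succ j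
    push_cast; linarith
  have hP0 : 0 < P := Real.rpow_pos_of_pos hN0 _
  have hQ0 : 0 < N ^ pp j := Real.rpow_pos_of_pos hN0 _
  have h1 : S ^ 2 ≤ 2 * N * (N * (1 / H) + 2 * (C * A * (N * (2 * u ^ 2) +
      2 * (N ^ pp j * (1 / u ^ 2))))) := by
    have h2 : (H : ℝ) * S ^ 2 ≤ (2 * N) * (N + 2 * (C * A * H * (N * (2 * u ^ 2) +
      2 * (N ^ pp j * (1 / u ^ 2))))) := by
      refine h.trans ?_
      have hCA : 0 < C * A := by positivity
      gcongr
      linarith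
    have h3 : (2 * N) * (N + 2 * (C * A * H * (N * (2 * u ^ 2) +
      2 * (N ^ pp j * (1 / u ^ 2))))) = H * (2 * N * (N * (1 / H) + 2 * (C * A * (N * (2 * u ^ 2) +
      2 * (N ^ pp j * (1 / u ^ 2)))))) := by
      field_simp
    rw [h3] at h2
    exact le_of_mul_le_mul_left h2 hH0
  have h4 : S ^ 2 ≤ 2 * N * (N * u ^ 2 + 2 * (C * A * (N * (2 * u ^ 2) +
      2 * (N ^ pp j * (1 / u ^ 2))))) := by
    refine h1.trans ?_
    gcongr
  have h5 : 2 * N * (N * u ^ 2 + 2 * (C * A * (N * (2 * u ^ 2) +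
      2 * (N ^ pp j * (1 / u ^ 2))))) = (2 + 8 * (C * A)) * (N * u) ^ 2 +
      8 * (C * A) * (P * (1 / u)) ^ 2 := by
    have : (P * (1 / u)) ^ 2 = (N * N ^ pp j) * (1 / u ^ 2) := by rw [hPP]; ring
    rw [this]; ring
  rw [h5] at h4
  have hCA : 2 + 8 * (C * A) ≤ (2 + 8 * C) * A ^ 2 := by nlinarith [mul_pos hC (by linarith : 0 < A)]
  have h6 : S ^ 2 ≤ (Real.sqrt (2 + 8 * C) * A * (N * u + P * (1 / u))) ^ 2 := by
    rw [mul_pow, mul_pow, Real.sq_sqrt (by positivity)]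
    have hc1 : 0 ≤ N * u := by positivity
    have hc2 : 0 ≤ P * (1 / u) := by positivity
    have hc3 : 0 ≤ 2 * (C * A) := by positivity
    calc S ^ 2 ≤ (2 + 8 * (C * A)) * (N * u) ^ 2 + 8 * (C * A) * (P * (1 / u)) ^ 2 := h4
      _ ≤ (2 + 8 * (C * A)) * (N * u + P * (1 / u)) ^ 2 := by
          nlinarith [mul_nonneg hc1 hc2, mul_nonneg hc3 (mul_nonneg hc1 hc2)]
      _ ≤ _ := mul_le_mul_of_nonneg_right hCA (by positivity)
  exact le_of_sq_le_sq h6 (by positivity)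

theorem kth_succ (j : ℕ) (ih : KthTest j) : KthTest (j + 1) := by
  obtain ⟨C, hC, h⟩ := ih
  refine ⟨Real.sqrt (2 + 8 * C) + 1, by positivity, fun F a b lam A hab hl hA hd hb => ?_⟩
  have habr : (a : ℝ) < b := by exact_mod_cast hab
  set N : ℝ := (b : ℝ) - a with hNdef
  have hN : 1 ≤ N := by
    have : (a : ℝ) + 1 ≤ b := by exact_mod_cast hab
    linarith
  have hN0 : 0 < N := by linarith
  have hk1 := kap_pos (j + 1)
  have hp1 := pp_nonneg (j + 1)
  have hCp : 1 ≤ Real.sqrt (2 + 8 * C) + 1 := by linarith [Real.sqrt_nonneg (2 + 8 * C)]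
  have hCA : 1 ≤ (Real.sqrt (2 + 8 * C) + 1) * A := by nlinarith
  have htriv : ‖∑ n ∈ Finset.Ioc a b, ee (F 0 n)‖ ≤ N :=
    norm_sum_ee_le (fun n => F 0 n) a b hab.le
  have hx1 : 0 < lam ^ kap (j + 1) := Real.rpow_pos_of_pos hl _
  have hx2 : 0 < lam ^ (-kap (j + 1)) := Real.rpow_pos_of_pos hl _
  have hx3 : 0 < N ^ pp (j + 1) := Real.rpow_pos_of_pos hN0 _
  rcases le_total 1 lam with hl1 | hl1
  · refine htriv.trans ?_
    have h1 : 1 ≤ lam ^ kap (j + 1) := Real.one_le_rpow hl1 hk1.le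
    calc N ≤ 1 * (N * lam ^ kap (j + 1) + N ^ pp (j + 1) * lam ^ (-kap (j + 1))) := by
          nlinarith [mul_pos hx3 hx2]
      _ ≤ _ := by gcongr
  set H : ℕ := ⌈lam ^ (-(2 * kap (j + 1)))⌉₊ with hHdef
  have hle1 : 1 ≤ lam ^ (-(2 * kap (j + 1))) :=
    Real.one_le_rpow_of_pos_of_le_one_of_nonpos hl hl1 (by linarith)
  have hH1 : lam ^ (-(2 * kap (j + 1))) ≤ H := Nat.le_ceil _
  have hH2 : (H : ℝ) ≤ 2 * lam ^ (-(2 * kap (j + 1))) := by
    have := Nat.ceil_lt_add_one (show 0 ≤ lam ^ (-(2 * kap (j + 1))) by positivity)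
    rw [← hHdef] at this
    linarith
  have hHge : 1 ≤ H := by
    have : (1 : ℝ) ≤ H := hle1.trans hH1
    exact_mod_cast this
  rcases lt_or_ge N (lam ^ (-(2 * kap (j + 1)))) with hcase | hcase
  · -- trivial case
    refine htriv.trans ?_
    have h1 : N ≤ N ^ pp (j + 1) * lam ^ (-kap (j + 1)) := by
      have e1 : N = N ^ pp (j + 1) * N ^ (1 - pp (j + 1)) := by
        rw [← Real.rpow_add hN0]; simp
      conv_lhs => rw [e1]
      apply mul_le_mul_of_nonneg_left _ hx3.le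
      calc N ^ (1 - pp (j + 1)) ≤ (lam ^ (-(2 * kap (j + 1)))) ^ (1 - pp (j + 1)) :=
            Real.rpow_le_rpow hN0.le hcase.le (by linarith [pp_lt_one (j + 1)])
        _ = lam ^ (-(2 * kap (j + 1)) * (1 - pp (j + 1))) := by rw [← Real.rpow_mul hl.le]
        _ ≤ lam ^ (-kap (j + 1)) := by
            apply Real.rpow_le_rpow_of_exponent_ge hl hl1
            have : 1 - pp (j + 1) ≤ 1 / 2 := by
              unfold pp
              have h2 := two_pow_ge j
              have : (1 : ℝ) / 2 ^ (j + 1) ≤ 1 / 2 := by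
                apply one_div_le_one_div_of_le (by norm_num)
                rw [pow_succ]; linarith
              linarith
            nlinarith
    calc N ≤ 1 * (N * lam ^ kap (j + 1) + N ^ pp (j + 1) * lam ^ (-kap (j + 1))) := by
          nlinarith [mul_pos hN0 hx1]
      _ ≤ _ := by gcongr
  have hHN : (H : ℝ) ≤ N := by
    have : H ≤ b - a := by
      rw [hHdef, Nat.ceil_le, Nat.cast_sub hab.le]
      exact hcase
    have h2 : (H : ℝ) ≤ ((b - a : ℕ) : ℝ) := by exact_mod_cast this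
    rwa [Nat.cast_sub hab.le] at h2
  have hHN' : H ≤ b - a := by
    have h2 : (H : ℝ) ≤ ((b - a : ℕ) : ℝ) := by rw [Nat.cast_sub hab.le]; exact hHN
    exact_mod_cast h2
  have haproc := aproc (fun n => ee (F 0 n)) (fun n => (norm_ee _).le) a b H hab hHge
  -- correlations
  have hcorr : ∀ d, 1 ≤ d → d < H → corr (fun n => ee (F 0 n)) a b d ≤
      C * A * (N * ((d : ℝ) * lam) ^ kap j + N ^ pp j * ((d : ℝ) * lam) ^ (-kap j)) := by
    intro d hd1 hd2
    have hd0 : (0 : ℝ) < d := by exact_mod_cast hd1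
    have hdb : a < b - d := by omega
    have hbd : ((b - d : ℕ) : ℝ) = (b : ℝ) - d := by rw [Nat.cast_sub (by omega)]
    have hmem : ∀ x ∈ Set.Icc (a : ℝ) ((b - d : ℕ) : ℝ), ∀ t ∈ Set.Icc (0 : ℝ) d,
        x + t ∈ Set.Icc (a : ℝ) b := by
      intro x hx t ht
      rw [hbd] at hx
      exact ⟨by linarith [hx.1, ht.1], by linarith [hx.2, ht.2]⟩
    have key := h (fun i x => F i (x + d) - F i x) a (b - d) (d * lam) A hdb (by positivity) hA
      (by
        intro i hi x hx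
        have e1 := hd i (by omega) (x + d) (hmem x hx d ⟨hd0.le, le_rfl⟩)
        have e2 := hd i (by omega) x (by simpa using hmem x hx 0 ⟨le_rfl, hd0.le⟩)
        have e3 : HasDerivAt (fun x => F i (x + d)) (F (i + 1) (x + d)) x := by
          have := HasDerivAt.comp_add_const x (d : ℝ) e1
          exact this
        exact e3.sub e2)
      (by
        intro x hx
        have hlt : x < x + d := by linarith
        obtain ⟨c, hc, hc2⟩ := exists_hasDerivAt_eq_slope (F (j + 2)) (F (j + 3)) hlt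
          (by
            intro t ht
            have : t ∈ Set.Icc (a : ℝ) b := by
              have := hmem x hx (t - x) ⟨by linarith [ht.1], by linarith [ht.2]⟩
              simpa using this
            exact (hd (j + 2) (by omega) t this).continuousAt.continuousWithinAt)
          (by
            intro t ht
            have : t ∈ Set.Icc (a : ℝ) b := by
              have := hmem x hx (t - x) ⟨by linarith [ht.1], by linarith [ht.2]⟩
              simpa using this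
            exact hd (j + 2) (by omega) t this)
        have hcm : c ∈ Set.Icc (a : ℝ) b := by
          have := hmem x hx (c - x) ⟨by linarith [hc.1], by linarith [hc.2]⟩
          simpa using this
        have hcb := hb c hcm
        have e : F (j + 2) (x + d) - F (j + 2) x = d * F (j + 3) c := by
          rw [hc2, add_sub_cancel_left]; field_simp
        have hcb' : lam ≤ F (j + 3) c ∧ F (j + 3) c ≤ A * lam := hcb
        show d * lam ≤ F (j + 2) (x + d) - F (j + 2) x ∧ F (j + 2) (x + d) - F (j + 2) x ≤ A * (d * lam)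
        rw [e]
        constructor
        · exact mul_le_mul_of_nonneg_left hcb'.1 hd0.le
        · calc (d : ℝ) * F (j + 3) c ≤ d * (A * lam) := mul_le_mul_of_nonneg_left hcb'.2 hd0.le
            _ = _ := by ring)
    have e0 : corr (fun n => ee (F 0 n)) a b d =
        ‖∑ n ∈ Finset.Ioc a (b - d), ee (F 0 ((n : ℝ) + d) - F 0 n)‖ := by
      unfold corr
      congr 1
      refine Finset.sum_congr rfl (fun n _ => ?_)
      show ee (F 0 ((n + d : ℕ) : ℝ)) * conj (ee (F 0 n)) = _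
      rw [conj_ee, ← ee_add, Nat.cast_add, sub_eq_add_neg]
    rw [e0]
    refine key.trans ?_
    rw [hbd]
    have hNd : 0 ≤ (b : ℝ) - d - a := by
      have : (a : ℝ) < ((b - d : ℕ) : ℝ) := by exact_mod_cast hdb
      rw [hbd] at this; linarith
    have hNd2 : (b : ℝ) - d - a ≤ N := by rw [hNdef]; linarith
    have hq := Real.rpow_le_rpow hNd hNd2 (pp_nonneg j)
    gcongr
  have hsum := sum_corr_bound j hC hA hN hl H hHge (corr (fun n => ee (F 0 n)) a b) hcorr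
  have h7 : (H : ℝ) * ‖∑ n ∈ Finset.Ioc a b, ee (F 0 n)‖ ^ 2 ≤
      (N + H) * (N + 2 * (C * A * H * (N * ((H : ℝ) * lam) ^ kap j +
      2 * (N ^ pp j * ((H : ℝ) * lam) ^ (-kap j))))) := by
    refine haproc.trans ?_
    have : (0 : ℝ) < N + H := by positivity
    gcongr
  have := opt j hC hA hN hl H hHge hHN hH1 hH2 h7
  refine this.trans ?_
  gcongr
  linarith

/-- the `k`-th derivative test for every `k ≥ 2` (here `k = j + 2`) -/
theorem kth (j : ℕ) : KthTest j := by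
  induction j with
  | zero => exact kth_zero
  | succ j ih => exact kth_succ j ih

/-- the same with the `k`-th derivative negative -/
theorem kth_neg (j : ℕ) : ∃ C : ℝ, 0 < C ∧ ∀ (F : ℕ → ℝ → ℝ) (a b : ℕ) (lam A : ℝ),
    a < b → 0 < lam → 1 ≤ A →
    (∀ i < j + 2, ∀ x ∈ Set.Icc (a : ℝ) b, HasDerivAt (F i) (F (i + 1) x) x) →
    (∀ x ∈ Set.Icc (a : ℝ) b, lam ≤ -F (j + 2) x ∧ -F (j + 2) x ≤ A * lam) →
    ‖∑ n ∈ Finset.Ioc a b, ee (F 0 n)‖ ≤
      C * A * (((b : ℝ) - a) * lam ^ kap j + ((b : ℝ) - a) ^ pp j * lam ^ (-kap j)) := by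
  obtain ⟨C, hC, h⟩ := kth j
  refine ⟨C, hC, fun F a b lam A hab hl hA hd hb => ?_⟩
  have := h (fun i x => -F i x) a b lam A hab hl hA (fun i hi x hx => (hd i hi x hx).neg) hb
  have e : ‖∑ n ∈ Finset.Ioc a b, ee (-F 0 n)‖ = ‖∑ n ∈ Finset.Ioc a b, ee (F 0 n)‖ := by
    rw [← Complex.norm_conj, map_sum]
    congr 1
    refine Finset.sum_congr rfl (fun n _ => ?_)
    rw [conj_ee, neg_neg]
  rw [← e]
  exact this

end Pool.Agent.Helper1.KSZ
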