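import Pool.Agent.Helper1.KSZ.Kth

/-! Bounds for the sums `∑ n^(-it)` over dyadic blocks from the `k`-th derivative test
(project KSZ). -/

set_option autoImplicit false
open scoped ComplexConjugate Nat

namespace Pool.Agent.Helper1.KSZ

open Pool.Agent.Helper10.QRH Pool.Agent.Helper64.QRH

/-- the phase `-(t/2π) log x` and its derivatives -/
noncomputable def FL (t : ℝ) : ℕ → ℝ → ℝ
  | 0 => fun x => -(t / (2 * Real.pi)) * Real.log x
  | (i + 1) => fun x => (-1) ^ (i + 1) * (i ! : ℝ) * (t / (2 * Real.pi)) * (x ^ (i + 1))⁻¹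

theorem FL_deriv (t : ℝ) (i : ℕ) {x : ℝ} (hx : 0 < x) :
    HasDerivAt (FL t i) (FL t (i + 1) x) x := by
  cases i with
  | zero =>
    have := (Real.hasDerivAt_log hx.ne').const_mul (-(t / (2 * Real.pi)))
    refine this.congr_deriv ?_
    simp [FL]
  | succ i =>
    have h1 : HasDerivAt (fun x : ℝ => (x ^ (i + 1))⁻¹)
        (-(((i + 1 : ℕ) : ℝ) * x ^ i) / (x ^ (i + 1)) ^ 2) x := by
      have := (hasDerivAt_pow (i + 1) x).inv (pow_ne_zero _ hx.ne')
      exact this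
    have h2 := h1.const_mul ((-1) ^ (i + 1) * (i ! : ℝ) * (t / (2 * Real.pi)))
    refine h2.congr_deriv ?_
    show _ = (-1) ^ (i + 2) * ((i + 1)! : ℝ) * (t / (2 * Real.pi)) * (x ^ (i + 2))⁻¹
    rw [Nat.factorial_succ]
    push_cast
    field_simp
    ring

theorem ee_FL (t : ℝ) {n : ℕ} (hn : 0 < n) : ee (FL t 0 n) = (n : ℂ) ^ (-(t * Complex.I)) := by
  have hn' : (n : ℂ) ≠ 0 := by exact_mod_cast hn.ne'
  unfold ee FL
  rw [Complex.cpow_def_of_ne_zero hn', ← Complex.ofReal_natCast, ← Complex.ofReal_log (by positivity)]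
  congr 1
  push_cast
  have hpi : (Real.pi : ℂ) ≠ 0 := by exact_mod_cast Real.pi_ne_zero
  field_simp

/-- block sum -/
noncomputable def BS (t : ℝ) (X M : ℕ) : ℂ := ∑ n ∈ Finset.Ioc X M, (n : ℂ) ^ (-(t * Complex.I))

theorem BS_eq (t : ℝ) (X M : ℕ) : BS t X M = ∑ n ∈ Finset.Ioc X M, ee (FL t 0 n) := by
  unfold BS
  refine Finset.sum_congr rfl (fun n hn => ?_)
  rw [Finset.mem_Ioc] at hn
  rw [ee_FL t (by omega)]

theorem BS_trivial (t : ℝ) {X M : ℕ} (h : X ≤ M) : ‖BS t X M‖ ≤ (M : ℝ) - X := by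
  rw [BS_eq]
  exact norm_sum_ee_le (fun n => FL t 0 n) X M h

/-- raw `k`-th derivative bound for the block -/
theorem block_kth (j : ℕ) : ∃ C : ℝ, 0 < C ∧ ∀ (t : ℝ) (X M : ℕ), 0 < t → 1 ≤ X → X < M → M ≤ 2 * X →
    ‖BS t X M‖ ≤ C * ((X : ℝ) * (t / (X : ℝ) ^ (j + 2)) ^ kap j +
      (X : ℝ) ^ pp j * (t / (X : ℝ) ^ (j + 2)) ^ (-kap j)) := by
  obtain ⟨C1, hC1, h1⟩ := kth j
  obtain ⟨C2, hC2, h2⟩ := kth_neg j
  set c : ℝ := ((j + 1)! : ℝ) / (2 * Real.pi) / 2 ^ (j + 2) with hc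
  have hpi := Real.pi_pos
  have hc0 : 0 < c := by
    have : (0 : ℝ) < ((j + 1)! : ℝ) := by exact_mod_cast Nat.factorial_pos _
    positivity
  set D : ℝ := max (c ^ kap j) (c ^ (-kap j)) with hD
  have hD0 : 0 < D := lt_of_lt_of_le (Real.rpow_pos_of_pos hc0 _) (le_max_left _ _)
  refine ⟨max C1 C2 * 2 ^ (j + 2) * D, by positivity, fun t X M ht hX hXM hM2 => ?_⟩
  have hXr : (1 : ℝ) ≤ X := by exact_mod_cast hX
  have hX0 : (0 : ℝ) < X := by linarith
  have hMr : (M : ℝ) ≤ 2 * X := by exact_mod_cast hM2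
  have hXMr : (X : ℝ) < M := by exact_mod_cast hXM
  set mu : ℝ := t / (X : ℝ) ^ (j + 2) with hmu
  have hmu0 : 0 < mu := by positivity
  have hval : ∀ x ∈ Set.Icc (X : ℝ) M, c * mu ≤ ((j + 1)! : ℝ) * (t / (2 * Real.pi)) * (x ^ (j + 2))⁻¹ ∧
      ((j + 1)! : ℝ) * (t / (2 * Real.pi)) * (x ^ (j + 2))⁻¹ ≤ 2 ^ (j + 2) * (c * mu) := by
    intro x hx
    have hx0 : 0 < x := by linarith [hx.1]
    have hf : (0 : ℝ) < ((j + 1)! : ℝ) := by exact_mod_cast Nat.factorial_pos _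
    have e1 : c * mu = ((j + 1)! : ℝ) * (t / (2 * Real.pi)) * ((2 * (X : ℝ)) ^ (j + 2))⁻¹ := by
      rw [hc, hmu, mul_pow]; field_simp
    have e2 : 2 ^ (j + 2) * (c * mu) = ((j + 1)! : ℝ) * (t / (2 * Real.pi)) * ((X : ℝ) ^ (j + 2))⁻¹ := by
      rw [hc, hmu]; field_simp
    rw [e2, e1]
    have hx1 : x ^ (j + 2) ≤ (2 * (X : ℝ)) ^ (j + 2) :=
      pow_le_pow_left₀ hx0.le (by linarith [hx.2]) _
    have hx2 : (X : ℝ) ^ (j + 2) ≤ x ^ (j + 2) := pow_le_pow_left₀ hX0.le hx.1 _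
    constructor
    · gcongr
    · gcongr
  have hA : (1 : ℝ) ≤ 2 ^ (j + 2) := one_le_pow₀ (by norm_num)
  have hder : ∀ i < j + 2, ∀ x ∈ Set.Icc (X : ℝ) M, HasDerivAt (FL t i) (FL t (i + 1) x) x :=
    fun i _ x hx => FL_deriv t i (by linarith [hx.1])
  have main : ‖BS t X M‖ ≤ max C1 C2 * 2 ^ (j + 2) *
      (((M : ℝ) - X) * (c * mu) ^ kap j + ((M : ℝ) - X) ^ pp j * (c * mu) ^ (-kap j)) := by
    rw [BS_eq]
    rcases Nat.even_or_odd j with he | ho
    · have hs : ((-1 : ℝ)) ^ (j + 1 + 1) = 1 := by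
        rw [pow_succ, pow_succ, he.neg_one_pow]; norm_num
      have := h1 (FL t) X M (c * mu) (2 ^ (j + 2)) hXM (by positivity) hA hder (by
        intro x hx
        show c * mu ≤ (-1) ^ (j + 1 + 1) * ((j + 1)! : ℝ) * (t / (2 * Real.pi)) * (x ^ (j + 1 + 1))⁻¹ ∧
          (-1) ^ (j + 1 + 1) * ((j + 1)! : ℝ) * (t / (2 * Real.pi)) * (x ^ (j + 1 + 1))⁻¹ ≤ _
        rw [hs, one_mul]
        exact hval x hx)
      refine this.trans ?_
      have hp : 0 ≤ ((M : ℝ) - X) * (c * mu) ^ kap j + ((M : ℝ) - X) ^ pp j * (c * mu) ^ (-kap j) := by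
        have : 0 ≤ (M : ℝ) - X := by linarith
        positivity
      gcongr
      exact le_max_left _ _
    · have hs : ((-1 : ℝ)) ^ (j + 1 + 1) = -1 := by
        rw [pow_succ, pow_succ, ho.neg_one_pow]; norm_num
      have := h2 (FL t) X M (c * mu) (2 ^ (j + 2)) hXM (by positivity) hA hder (by
        intro x hx
        show c * mu ≤ -((-1) ^ (j + 1 + 1) * ((j + 1)! : ℝ) * (t / (2 * Real.pi)) * (x ^ (j + 1 + 1))⁻¹) ∧
          -((-1) ^ (j + 1 + 1) * ((j + 1)! : ℝ) * (t / (2 * Real.pi)) * (x ^ (j + 1 + 1))⁻¹) ≤ _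
        rw [hs]
        have := hval x hx
        constructor
        · calc _ ≤ _ := this.1
            _ = _ := by ring
        · calc _ = ((j + 1)! : ℝ) * (t / (2 * Real.pi)) * (x ^ (j + 2))⁻¹ := by ring
            _ ≤ _ := this.2)
      refine this.trans ?_
      have hp : 0 ≤ ((M : ℝ) - X) * (c * mu) ^ kap j + ((M : ℝ) - X) ^ pp j * (c * mu) ^ (-kap j) := by
        have : 0 ≤ (M : ℝ) - X := by linarith
        positivity
      gcongr
      exact le_max_right _ _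
  refine main.trans ?_
  have hMX : (M : ℝ) - X ≤ X := by linarith
  have hMX0 : 0 ≤ (M : ℝ) - X := by linarith
  have hq := Real.rpow_le_rpow hMX0 hMX (pp_nonneg j)
  have hm1 : 0 < mu ^ kap j := Real.rpow_pos_of_pos hmu0 _
  have hm2 : 0 < mu ^ (-kap j) := Real.rpow_pos_of_pos hmu0 _
  have hXp : 0 < (X : ℝ) ^ pp j := Real.rpow_pos_of_pos hX0 _
  rw [Real.mul_rpow hc0.le hmu0.le, Real.mul_rpow hc0.le hmu0.le]
  have k1 : ((M : ℝ) - X) * (c ^ kap j * mu ^ kap j) ≤ D * (X * mu ^ kap j) := by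
    have : c ^ kap j ≤ D := le_max_left _ _
    calc ((M : ℝ) - X) * (c ^ kap j * mu ^ kap j) ≤ X * (D * mu ^ kap j) := by gcongr
      _ = _ := by ring
  have k2 : ((M : ℝ) - X) ^ pp j * (c ^ (-kap j) * mu ^ (-kap j)) ≤
      D * ((X : ℝ) ^ pp j * mu ^ (-kap j)) := by
    have : c ^ (-kap j) ≤ D := le_max_right _ _
    calc ((M : ℝ) - X) ^ pp j * (c ^ (-kap j) * mu ^ (-kap j)) ≤ (X : ℝ) ^ pp j * (D * mu ^ (-kap j)) := by
          gcongr
      _ = _ := by ring
  have hCpos : 0 < max C1 C2 * 2 ^ (j + 2) := by positivity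
  calc _ ≤ max C1 C2 * 2 ^ (j + 2) * (D * (X * mu ^ kap j) + D * ((X : ℝ) ^ pp j * mu ^ (-kap j))) := by
        apply mul_le_mul_of_nonneg_left _ hCpos.le
        linarith
    _ = _ := by ring

/-- `l_j = 1 - k κ_j`, `k = j + 2` -/
noncomputable def ll (j : ℕ) : ℝ := 1 - (j + 2) * kap j

theorem ll_zero : ll 0 = 0 := by unfold ll; rw [kap_zero]; norm_num

theorem kap_rel (j : ℕ) : kap j * (1 - 1 / 2 ^ (j + 1)) = kap (j + 1) * (2 - 1 / 2 ^ (j + 1)) := by
  unfold kap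
  have h0 := two_pow_ge j
  have e2 : (2 : ℝ) ^ (j + 2) = 4 * 2 ^ j := by ring
  have e3 : (2 : ℝ) ^ (j + 1 + 2) = 8 * 2 ^ j := by ring
  have e1 : (2 : ℝ) ^ (j + 1) = 2 * 2 ^ j := by ring
  rw [e1, e2, e3]
  generalize (2 : ℝ) ^ j = K at h0
  have h4 : 2 * K - 1 ≠ 0 := by linarith
  have h5 : 4 * K - 1 ≠ 0 := by linarith
  have h6 : K ≠ 0 := by linarith
  rw [show 4 * K - 2 = 2 * (2 * K - 1) by ring, show 8 * K - 2 = 2 * (4 * K - 1) by ring]
  have e4 : 1 / (2 * (2 * K - 1)) * (1 - 1 / (2 * K)) = 1 / (4 * K) := by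
    field_simp
    norm_num
  have e5 : 1 / (2 * (4 * K - 1)) * (2 - 1 / (2 * K)) = 1 / (4 * K) := by
    field_simp
    norm_num
  rw [e4, e5]

theorem kap_anti (j : ℕ) : kap (j + 1) ≤ kap j := by
  unfold kap
  apply one_div_le_one_div_of_le (by linarith [den_pos j])
  have := two_pow_ge (j + 2)
  have e3 : (2 : ℝ) ^ (j + 1 + 2) = 2 * 2 ^ (j + 2) := by ring
  rw [e3]; linarith

/-- Block bound: for `X ≤ t`, `|∑_{X < n ≤ M} n^(-it)| ≤ C X^{l_j} t^{κ_j}`. -/
theorem block_all (j : ℕ) : ∃ C : ℝ, 0 < C ∧ ∀ (t : ℝ) (X M : ℕ), 1 ≤ X → X ≤ M → M ≤ 2 * X →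
    (X : ℝ) ≤ t → ‖BS t X M‖ ≤ C * ((X : ℝ) ^ ll j * t ^ kap j) := by
  induction j with
  | zero =>
    obtain ⟨C, hC, h⟩ := block_kth 0
    refine ⟨2 * C, by positivity, fun t X M hX hXM hM2 hXt => ?_⟩
    have hXr : (1 : ℝ) ≤ X := by exact_mod_cast hX
    have hX0 : (0 : ℝ) < X := by linarith
    have ht : 0 < t := by linarith
    rcases hXM.eq_or_lt with rfl | hXM
    · unfold BS; simp only [Finset.Ioc_self, Finset.sum_empty, norm_zero]; positivity
    refine (h t X M ht hX hXM hM2).trans ?_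
    rw [ll_zero, kap_zero, pp_zero, Real.rpow_zero, one_mul, one_mul, zero_add]
    have e1 : (X : ℝ) * (t / (X : ℝ) ^ 2) ^ (1 / 2 : ℝ) = t ^ (1 / 2 : ℝ) := by
      rw [Real.div_rpow ht.le (by positivity), ← Real.rpow_natCast, ← Real.rpow_mul hX0.le]
      norm_num
      field_simp
    have e2 : (t / (X : ℝ) ^ 2) ^ (-(1 / 2) : ℝ) ≤ t ^ (1 / 2 : ℝ) := by
      rw [Real.rpow_neg (by positivity), Real.div_rpow ht.le (by positivity),
        ← Real.rpow_natCast, ← Real.rpow_mul hX0.le]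
      norm_num
      rw [div_le_iff₀ (by positivity), ← Real.rpow_add ht]
      norm_num
      exact hXt
    rw [e1]
    nlinarith
  | succ j ih =>
    obtain ⟨C, hC, h⟩ := block_kth (j + 1)
    obtain ⟨C', hC', h'⟩ := ih
    refine ⟨max (2 * C) C', by positivity, fun t X M hX hXM hM2 hXt => ?_⟩
    have hXr : (1 : ℝ) ≤ X := by exact_mod_cast hX
    have hX0 : (0 : ℝ) < X := by linarith
    have ht : 0 < t := by linarith
    rcases hXM.eq_or_lt with rfl | hXM'
    · unfold BS; simp only [Finset.Ioc_self, Finset.sum_empty, norm_zero]; positivity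
    set e : ℝ := j + 1 + 1 / 2 ^ (j + 1) with he
    have hk := kap_pos (j + 1)
    have hrel := kap_rel j
    rcases le_or_gt ((X : ℝ) ^ e) t with hc | hc
    · -- k-th derivative test
      refine (h t X M ht hX hXM' hM2).trans ?_
      have e1 : (X : ℝ) * (t / (X : ℝ) ^ (j + 1 + 2)) ^ kap (j + 1) =
          (X : ℝ) ^ ll (j + 1) * t ^ kap (j + 1) := by
        rw [Real.div_rpow ht.le (by positivity), ← Real.rpow_natCast, ← Real.rpow_mul hX0.le]
        unfold ll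
        rw [Real.rpow_sub hX0, Real.rpow_one]
        push_cast
        field_simp
      have e2 : (X : ℝ) ^ pp (j + 1) * (t / (X : ℝ) ^ (j + 1 + 2)) ^ (-kap (j + 1)) ≤
          (X : ℝ) ^ ll (j + 1) * t ^ kap (j + 1) := by
        rw [Real.rpow_neg (by positivity), Real.div_rpow ht.le (by positivity), inv_div,
          ← Real.rpow_natCast, ← Real.rpow_mul hX0.le]
        rw [mul_div_assoc', div_le_iff₀ (by positivity), mul_assoc, ← Real.rpow_add ht,
          ← Real.rpow_add hX0]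
        have e3 : (X : ℝ) ^ (pp (j + 1) + ((j + 1 + 2 : ℕ) : ℝ) * kap (j + 1)) =
            (X : ℝ) ^ ll (j + 1) * ((X : ℝ) ^ e) ^ (kap (j + 1) + kap (j + 1)) := by
          rw [← Real.rpow_mul hX0.le, ← Real.rpow_add hX0]
          congr 1
          unfold ll pp
          rw [he]
          have hq : kap (j + 1) * (2 - 1 / 2 ^ (j + 1)) = 1 / 2 ^ (j + 2) := by
            unfold kap
            have h0 := two_pow_ge j
            have e2 : (2 : ℝ) ^ (j + 2) = 4 * 2 ^ j := by ring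
            have e3 : (2 : ℝ) ^ (j + 1 + 2) = 8 * 2 ^ j := by ring
            have e1 : (2 : ℝ) ^ (j + 1) = 2 * 2 ^ j := by ring
            rw [e1, e2, e3]
            generalize (2 : ℝ) ^ j = K at h0
            have h5 : 4 * K - 1 ≠ 0 := by linarith
            have h6 : K ≠ 0 := by linarith
            rw [show 8 * K - 2 = 2 * (4 * K - 1) by ring]
            field_simp
            norm_num
          have hq2 : (1 : ℝ) / 2 ^ (j + 1) = 2 * (1 / 2 ^ (j + 2)) := by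
            rw [pow_succ (2 : ℝ) (j + 1)]; field_simp
          push_cast
          rw [hq2] at hq ⊢
          nlinarith
        rw [e3]
        gcongr
      rw [e1]
      have hpos : 0 < (X : ℝ) ^ ll (j + 1) * t ^ kap (j + 1) := by positivity
      calc _ ≤ C * ((X : ℝ) ^ ll (j + 1) * t ^ kap (j + 1) + (X : ℝ) ^ ll (j + 1) * t ^ kap (j + 1)) := by
            apply mul_le_mul_of_nonneg_left _ hC.le
            linarith
        _ = 2 * C * ((X : ℝ) ^ ll (j + 1) * t ^ kap (j + 1)) := by ring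
        _ ≤ _ := mul_le_mul_of_nonneg_right (le_max_left _ _) hpos.le
    · refine (h' t X M hX hXM hM2 hXt).trans ?_
      have hkk : 0 ≤ kap j - kap (j + 1) := by linarith [kap_anti j]
      have e4 : t ^ kap j ≤ (X : ℝ) ^ (e * (kap j - kap (j + 1))) * t ^ kap (j + 1) := by
        calc t ^ kap j = t ^ (kap j - kap (j + 1)) * t ^ kap (j + 1) := by
              rw [← Real.rpow_add ht]; congr 1; ring
          _ ≤ ((X : ℝ) ^ e) ^ (kap j - kap (j + 1)) * t ^ kap (j + 1) := by gcongr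
          _ = _ := by rw [← Real.rpow_mul hX0.le]
      have e5 : ll j + e * (kap j - kap (j + 1)) = ll (j + 1) := by
        unfold ll
        rw [he]
        push_cast
        nlinarith
      have hpos : 0 < (X : ℝ) ^ ll (j + 1) * t ^ kap (j + 1) := by positivity
      calc C' * ((X : ℝ) ^ ll j * t ^ kap j) ≤
            C' * ((X : ℝ) ^ ll j * ((X : ℝ) ^ (e * (kap j - kap (j + 1))) * t ^ kap (j + 1))) := by
            gcongr
        _ = C' * ((X : ℝ) ^ ll (j + 1) * t ^ kap (j + 1)) := by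
            rw [← mul_assoc ((X : ℝ) ^ ll j), ← Real.rpow_add hX0, e5]
        _ ≤ _ := mul_le_mul_of_nonneg_right (le_max_right _ _) hpos.le

end Pool.Agent.Helper1.KSZ
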