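import Pool.Agent.Helper1.KSZ.Blocks
import Pool.Agent.Helper69.QRH.A0

/-! Approximation of zeta by partial sums and growth of zeta (project KSZ). -/

set_option autoImplicit false
open scoped ComplexConjugate Nat
open Filter Topology

namespace Pool.Agent.Helper1.KSZ

open Pool.Agent.Helper10.QRH Pool.Agent.Helper64.QRH Pool.Agent.Helper69.QRH

theorem rpow_step {x σ : ℝ} (hx : 0 < x) (hσ : 0 < σ) :
    σ * (x + 1) ^ (-σ - 1) ≤ x ^ (-σ) - (x + 1) ^ (-σ) := by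
  have hx1 : 0 < x + 1 := by linarith
  have h1 : (x + 1) ^ (-σ - 1) = (x + 1) ^ (-σ) * (1 / (x + 1)) := by
    rw [Real.rpow_sub hx1, Real.rpow_one]; ring
  have h2 : x ^ (-σ) = (x + 1) ^ (-σ) * (x / (x + 1)) ^ (-σ) := by
    rw [← Real.mul_rpow hx1.le (by positivity)]
    congr 1
    field_simp
  have h3 : 1 + σ * (1 / (x + 1)) ≤ (x / (x + 1)) ^ (-σ) := by
    rw [Real.rpow_def_of_pos (by positivity)]
    have h4 := Real.add_one_le_exp (Real.log (x / (x + 1)) * -σ)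
    have h5 := Real.log_le_sub_one_of_pos (show 0 < x / (x + 1) by positivity)
    have h6 : x / (x + 1) - 1 = -(1 / (x + 1)) := by field_simp; ring
    rw [h6] at h5
    nlinarith
  have hp : 0 < (x + 1) ^ (-σ) := Real.rpow_pos_of_pos hx1 _
  rw [h1, h2]
  nlinarith

theorem tail_sum_le {σ : ℝ} (hσ : 0 < σ) (N : ℕ) (hN : 1 ≤ N) (K : ℕ) :
    ∑ m ∈ Finset.range K, (((m + N : ℕ) : ℝ) + 1) ^ (-σ - 1) ≤
      ((N : ℝ) ^ (-σ) - ((N + K : ℕ) : ℝ) ^ (-σ)) / σ := by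
  have hNr : (0 : ℝ) < N := by exact_mod_cast hN
  induction K with
  | zero => simp
  | succ K ih =>
    rw [Finset.sum_range_succ]
    have h := rpow_step (x := ((N + K : ℕ) : ℝ)) (by positivity) hσ
    have e1 : (((K + N : ℕ) : ℝ) + 1) = ((N + K : ℕ) : ℝ) + 1 := by push_cast; ring
    have e2 : ((N + (K + 1) : ℕ) : ℝ) = ((N + K : ℕ) : ℝ) + 1 := by push_cast; ring
    rw [e1, e2]
    rw [le_div_iff₀ hσ] at ih ⊢
    nlinarith

/-- `(s-1) ζ(s)` by a partial sum -/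
theorem partial_TT (s : ℂ) (N : ℕ) :
    ∑ n ∈ Finset.range N, TT n s + 1 =
      (s - 1) * ∑ n ∈ Finset.Ioc 0 N, (n : ℂ) ^ (-s) + ((N : ℂ) + 1) ^ (1 - s) := by
  induction N with
  | zero => simp
  | succ N ih =>
    rw [Finset.sum_range_succ, Finset.sum_Ioc_succ_top (Nat.zero_le _)]
    have : ∑ n ∈ Finset.range N, TT n s + TT N s + 1 = (∑ n ∈ Finset.range N, TT n s + 1) + TT N s := by
      ring
    rw [this, ih]
    unfold TT
    push_cast
    have h1 : (N : ℂ) + 1 + 1 = N + 2 := by ring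
    rw [h1]
    ring

theorem zeta_approx {s : ℂ} (hs : 1 / 4 < s.re) (hs1 : s ≠ 1) (N : ℕ) (hN : 1 ≤ N) :
    ‖riemannZeta s - ∑ n ∈ Finset.Ioc 0 N, (n : ℂ) ^ (-s)‖ ≤
      ((N : ℝ) + 1) ^ (1 - s.re) / ‖s - 1‖ + ‖s‖ * ((N : ℝ) ^ (-s.re) / s.re) := by
  have hs0 : 0 < s.re := by linarith
  have hne : s - 1 ≠ 0 := sub_ne_zero.2 hs1
  have hnn : 0 < ‖s - 1‖ := norm_pos_iff.2 hne
  have hS : Summable (fun n : ℕ => TT n s) := by
    refine Summable.of_norm_bounded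
      ((summable_rpow_aux (r := -s.re - 1) (by linarith)).mul_left (‖s - 1‖ * ‖s‖)) fun n => ?_
    exact TT_bound n hs0
  have h1 : EZ s = ∑ n ∈ Finset.range N, TT n s + 1 + ∑' n : ℕ, TT (n + N) s := by
    rw [EZ_eq_tsum hs, ← hS.sum_add_tsum_nat_add N]
    ring
  rw [EZ_eq hs1, partial_TT] at h1
  have h2 : ‖∑' n : ℕ, TT (n + N) s‖ ≤ ‖s - 1‖ * ‖s‖ * ((N : ℝ) ^ (-s.re) / s.re) := by
    have hsm : Summable (fun n : ℕ => (((n + N : ℕ) : ℝ) + 1) ^ (-s.re - 1)) := by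
      exact (summable_nat_add_iff N).2 (summable_rpow_aux (r := -s.re - 1) (by linarith))
    have hb : ∑' n : ℕ, (((n + N : ℕ) : ℝ) + 1) ^ (-s.re - 1) ≤ (N : ℝ) ^ (-s.re) / s.re := by
      refine Real.tsum_le_of_sum_range_le (fun n => by positivity) (fun K => ?_)
      refine (tail_sum_le hs0 N hN K).trans ?_
      have : 0 ≤ ((N + K : ℕ) : ℝ) ^ (-s.re) := by positivity
      gcongr
      linarith
    calc ‖∑' n : ℕ, TT (n + N) s‖ ≤ ∑' n : ℕ, ‖s - 1‖ * ‖s‖ * (((n + N : ℕ) : ℝ) + 1) ^ (-s.re - 1) := by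
          refine tsum_of_norm_bounded (hsm.mul_left _).hasSum fun n => ?_
          exact TT_bound (n + N) hs0
      _ = ‖s - 1‖ * ‖s‖ * ∑' n : ℕ, (((n + N : ℕ) : ℝ) + 1) ^ (-s.re - 1) := tsum_mul_left
      _ ≤ _ := by gcongr
  have h3 : ‖((N : ℂ) + 1) ^ (1 - s)‖ = ((N : ℝ) + 1) ^ (1 - s.re) := by
    have h2 : ((N : ℂ) + 1) = (((N : ℝ) + 1 : ℝ) : ℂ) := by push_cast; ring
    rw [h2, Complex.norm_cpow_eq_rpow_re_of_pos (by positivity)]
    simp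
  have h4 : riemannZeta s - ∑ n ∈ Finset.Ioc 0 N, (n : ℂ) ^ (-s) =
      (((N : ℂ) + 1) ^ (1 - s) + ∑' n : ℕ, TT (n + N) s) / (s - 1) := by
    rw [eq_div_iff hne]
    linear_combination h1
  rw [h4, norm_div, div_le_iff₀ hnn]
  refine (norm_add_le _ _).trans ?_
  rw [h3]
  calc _ ≤ ((N : ℝ) + 1) ^ (1 - s.re) + ‖s - 1‖ * ‖s‖ * ((N : ℝ) ^ (-s.re) / s.re) := by linarith
    _ = _ := by field_simp

/-- the tail after `t^2` is bounded -/
theorem zeta_approx_two {σ t : ℝ} (hσ : 1 / 2 ≤ σ) (hσ2 : σ ≤ 2) (ht : 1 ≤ t) (N : ℕ)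
    (hN : t ^ 2 ≤ N) (hN2 : (N : ℝ) ≤ 2 * t ^ 2) :
    ‖riemannZeta ((σ : ℂ) + t * Complex.I) -
      ∑ n ∈ Finset.Ioc 0 N, (n : ℂ) ^ (-((σ : ℂ) + t * Complex.I))‖ ≤ 9 := by
  have hre : ((σ : ℂ) + t * Complex.I).re = σ := by simp
  have him : ((σ : ℂ) + t * Complex.I).im = t := by simp
  have ht0 : 0 < t := by linarith
  have hne : (σ : ℂ) + t * Complex.I ≠ 1 := by
    intro h
    have := congrArg Complex.im h
    rw [him] at this
    simp at this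
    linarith
  have hN1 : 1 ≤ N := by
    have : (1 : ℝ) ≤ N := by nlinarith
    exact_mod_cast this
  have hNr : (1 : ℝ) ≤ N := by exact_mod_cast hN1
  have h := zeta_approx (s := (σ : ℂ) + t * Complex.I) (by rw [hre]; linarith) hne N hN1
  rw [hre] at h
  refine h.trans ?_
  have h1 : t ≤ ‖(σ : ℂ) + t * Complex.I - 1‖ := by
    have := Complex.abs_im_le_norm ((σ : ℂ) + t * Complex.I - 1)
    simp at this
    rw [abs_of_pos ht0] at this
    exact this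
  have h2 : ‖(σ : ℂ) + t * Complex.I‖ ≤ 3 * t := by
    refine (norm_add_le _ _).trans ?_
    rw [norm_mul, Complex.norm_I, mul_one, Complex.norm_real, Complex.norm_real,
      Real.norm_of_nonneg (by linarith), Real.norm_of_nonneg ht0.le]
    linarith
  have h3 : ((N : ℝ) + 1) ^ (1 - σ) ≤ 3 * t := by
    have e1 : ((N : ℝ) + 1) ^ (1 - σ) ≤ ((N : ℝ) + 1) ^ (1 / 2 : ℝ) :=
      Real.rpow_le_rpow_of_exponent_le (by linarith) (by linarith)
    have e2 : ((N : ℝ) + 1) ^ (1 / 2 : ℝ) ≤ ((3 * t) ^ 2) ^ (1 / 2 : ℝ) := by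
      apply Real.rpow_le_rpow (by positivity) _ (by norm_num)
      nlinarith
    have e3 : ((3 * t) ^ 2) ^ (1 / 2 : ℝ) = 3 * t := by
      rw [← Real.sqrt_eq_rpow, Real.sqrt_sq (by positivity)]
    linarith
  have h4 : (N : ℝ) ^ (-σ) ≤ 1 / t := by
    have e1 : (N : ℝ) ^ (-σ) ≤ (N : ℝ) ^ (-(1 / 2) : ℝ) :=
      Real.rpow_le_rpow_of_exponent_le hNr (by linarith)
    have e2 : (N : ℝ) ^ (-(1 / 2) : ℝ) ≤ (t ^ 2) ^ (-(1 / 2) : ℝ) :=
      Real.rpow_le_rpow_of_nonpos (by positivity) hN (by norm_num)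
    have e3 : (t ^ 2) ^ (-(1 / 2) : ℝ) = 1 / t := by
      rw [Real.rpow_neg (by positivity), ← Real.sqrt_eq_rpow, Real.sqrt_sq ht0.le, one_div]
    linarith
  have h5 : (N : ℝ) ^ (-σ) / σ ≤ 2 / t := by
    rw [div_le_iff₀ (by linarith)]
    have : 2 / t * σ = (1 / t) * (2 * σ) := by ring
    rw [this]
    have hh : 0 < 1 / t := by positivity
    nlinarith
  calc _ ≤ 3 * t / t + 3 * t * (2 / t) := by gcongr
    _ = 9 := by field_simp; norm_num

end Pool.Agent.Helper1.KSZ
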